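import Pool.Agent.Helper4.Lip.Motion

set_option autoImplicit false

namespace Pool.Agent.Helper4.Lip

open Finset

variable {J : Type}

/-- translations -/
noncomputable def Tr (v : J → ℝ) : Motion J := ⟨1, v⟩
/-- diagonal sign changes -/
noncomputable def Rf (e : J → ℤˣ) : Motion J := ⟨e, 0⟩

theorem Tr_add (u v : J → ℝ) : Tr (u + v) = Tr u * Tr v := by
  ext j
  · simp [Tr, Motion.mul_s]
  · simp [Tr, Motion.mul_v, sg_one, add_comm]

theorem Tr_zero : Tr (0 : J → ℝ) = 1 := rfl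

theorem Rf_mul (e f : J → ℤˣ) : Rf (e * f) = Rf e * Rf f := by
  ext j
  · simp [Rf, Motion.mul_s]
  · simp [Rf, Motion.mul_v]

theorem Rf_one : Rf (1 : J → ℤˣ) = 1 := rfl

theorem eq_Tr_mul_Rf (g : Motion J) : g = Tr g.v * Rf g.s := by
  ext j
  · simp [Tr, Rf, Motion.mul_s]
  · simp [Tr, Rf, Motion.mul_v]

theorem mul_Tr (g : Motion J) (v : J → ℝ) : g * Tr v = Tr (fun j => sg (g.s j) * v j) * g := by
  ext j
  · simp [Tr, Motion.mul_s]
  · simp [Tr, Motion.mul_v, sg_one, add_comm]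

/-- chain complexes of real vector spaces with an action of the group of motions -/
structure GC (J : Type) where
  C : ℕ → Type
  [ag : ∀ i, AddCommGroup (C i)]
  [md : ∀ i, Module ℝ (C i)]
  d : ∀ i, C (i + 1) →ₗ[ℝ] C i
  dd : ∀ i c, d i (d (i + 1) c) = 0
  ρ : ∀ i, Motion J →* Module.End ℝ (C i)
  ρd : ∀ i g c, ρ i g (d i c) = d i (ρ (i + 1) g c)

attribute [instance] GC.ag GC.md

namespace GC

variable (K : GC J)

theorem ρ_mul (i : ℕ) (g h : Motion J) (c : K.C i) : K.ρ i (g * h) c = K.ρ i g (K.ρ i h c) := by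
  rw [map_mul]; rfl

theorem ρ_one (i : ℕ) (c : K.C i) : K.ρ i 1 c = c := by
  rw [map_one]; rfl

theorem ρ_inv_self (i : ℕ) (g : Motion J) (c : K.C i) : K.ρ i g⁻¹ (K.ρ i g c) = c := by
  rw [← K.ρ_mul, inv_mul_cancel, K.ρ_one]

theorem ρ_self_inv (i : ℕ) (g : Motion J) (c : K.C i) : K.ρ i g (K.ρ i g⁻¹ c) = c := by
  rw [← K.ρ_mul, mul_inv_cancel, K.ρ_one]

variable [DecidableEq J]

/-- unit translation in direction `j` -/
noncomputable def τ (j : J) : Motion J := Tr (Pi.single j 1)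

/-- the submodule generated by the `τ_j c - c`, `j ∈ A` -/
def U (A : Finset J) (i : ℕ) : Submodule ℝ (K.C i) :=
  Submodule.span ℝ {x | ∃ j ∈ A, ∃ c, x = K.ρ i (τ j) c - c}

theorem sub_mem_U {A : Finset J} {i : ℕ} {j : J} (hj : j ∈ A) (c : K.C i) :
    K.ρ i (τ j) c - c ∈ K.U A i := Submodule.subset_span ⟨j, hj, c, rfl⟩

theorem U_mono {A B : Finset J} (h : A ⊆ B) (i : ℕ) : K.U A i ≤ K.U B i := by
  apply Submodule.span_mono
  rintro x ⟨j, hj, c, rfl⟩
  exact ⟨j, h hj, c, rfl⟩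

theorem mul_τ (g : Motion J) (j : J) : (g.s j = 1 ∧ g * τ j = τ j * g) ∨
    (g.s j = -1 ∧ g * τ j = (τ j)⁻¹ * g) := by
  rcases Int.units_eq_one_or (g.s j) with h | h
  · left
    refine ⟨h, ?_⟩
    rw [τ, mul_Tr]
    congr 1
    congr 1
    funext k
    by_cases hk : k = j
    · subst hk; simp [h, sg_one]
    · simp [hk]
  · right
    refine ⟨h, ?_⟩
    rw [τ, mul_Tr]
    congr 1
    ext k
    · simp [Tr, Motion.inv_s]
    · by_cases hk : k = j
      · subst hk; simp [Tr, Motion.inv_v, h, sg_neg_one, sg_one]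
      · simp [Tr, Motion.inv_v, Pi.single_apply, hk]

theorem U_stable {A : Finset J} {i : ℕ} (g : Motion J) {c : K.C i} (hc : c ∈ K.U A i) :
    K.ρ i g c ∈ K.U A i := by
  induction hc using Submodule.span_induction with
  | mem x hx =>
    obtain ⟨j, hj, c, rfl⟩ := hx
    rw [map_sub, ← K.ρ_mul]
    rcases mul_τ g j with ⟨_, h⟩ | ⟨_, h⟩
    · rw [h, K.ρ_mul]
      exact K.sub_mem_U hj _
    · rw [h, K.ρ_mul]
      have h1 := K.sub_mem_U hj (K.ρ i (τ j)⁻¹ (K.ρ i g c))
      rw [K.ρ_self_inv] at h1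
      have h2 := (K.U A i).neg_mem h1
      rwa [neg_sub] at h2
  | zero => rw [map_zero]; exact Submodule.zero_mem _
  | add x y _ _ hx hy => rw [map_add]; exact Submodule.add_mem _ hx hy
  | smul r x _ hx => rw [map_smul]; exact Submodule.smul_mem _ r hx

theorem d_U {A : Finset J} {i : ℕ} {c : K.C (i + 1)} (hc : c ∈ K.U A (i + 1)) :
    K.d i c ∈ K.U A i := by
  induction hc using Submodule.span_induction with
  | mem x hx =>
    obtain ⟨j, hj, c, rfl⟩ := hx
    rw [map_sub, ← K.ρd]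
    exact K.sub_mem_U hj _
  | zero => rw [map_zero]; exact Submodule.zero_mem _
  | add x y _ _ hx hy => rw [map_add]; exact Submodule.add_mem _ hx hy
  | smul r x _ hx => rw [map_smul]; exact Submodule.smul_mem _ r hx

/-- boundaries modulo `U A` -/
def B (A : Finset J) (i : ℕ) : Submodule ℝ (K.C i) := LinearMap.range (K.d i) ⊔ K.U A i

theorem U_le_B (A : Finset J) (i : ℕ) : K.U A i ≤ K.B A i := le_sup_right

theorem d_mem_B (A : Finset J) (i : ℕ) (c : K.C (i + 1)) : K.d i c ∈ K.B A i :=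
  Submodule.mem_sup_left ⟨c, rfl⟩

theorem B_mono {A A' : Finset J} (h : A ⊆ A') (i : ℕ) : K.B A i ≤ K.B A' i :=
  sup_le_sup_left (K.U_mono h i) _

theorem B_stable {A : Finset J} {i : ℕ} (g : Motion J) {c : K.C i} (hc : c ∈ K.B A i) :
    K.ρ i g c ∈ K.B A i := by
  obtain ⟨_, ⟨b, rfl⟩, u, hu, rfl⟩ := Submodule.mem_sup.mp hc
  rw [map_add, K.ρd]
  exact Submodule.add_mem _ (K.d_mem_B A i _) (K.U_le_B A i (K.U_stable g hu))

/-- cycles modulo `U A` -/
def Cyc (A : Finset J) : ∀ i, K.C i → Prop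
  | 0, _ => True
  | i + 1, c => K.d i c ∈ K.U A i

theorem Cyc_stable {A : Finset J} (i : ℕ) (g : Motion J) {c : K.C i} (hc : K.Cyc A i c) :
    K.Cyc A i (K.ρ i g c) := by
  cases i with
  | zero => trivial
  | succ i =>
    show K.d i _ ∈ _
    rw [← K.ρd]
    exact K.U_stable g hc

theorem Cyc_add {A : Finset J} (i : ℕ) {c c' : K.C i} (hc : K.Cyc A i c) (hc' : K.Cyc A i c') :
    K.Cyc A i (c + c') := by
  cases i with
  | zero => trivial
  | succ i =>
    show K.d i _ ∈ _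
    rw [map_add]
    exact Submodule.add_mem _ hc hc'

theorem Cyc_smul {A : Finset J} (i : ℕ) (r : ℝ) {c : K.C i} (hc : K.Cyc A i c) :
    K.Cyc A i (r • c) := by
  cases i with
  | zero => trivial
  | succ i =>
    show K.d i _ ∈ _
    rw [map_smul]
    exact Submodule.smul_mem _ r hc

theorem Cyc_sum {A : Finset J} (i : ℕ) {ι : Type} (s : Finset ι) (f : ι → K.C i)
    (h : ∀ k ∈ s, K.Cyc A i (f k)) : K.Cyc A i (∑ k ∈ s, f k) := by
  cases i with
  | zero => trivial
  | succ i =>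
    show K.d i _ ∈ _
    rw [map_sum]
    exact Submodule.sum_mem _ h

section char

/-- the sign character attached to a set of coordinates -/
def chi (S : Finset J) (e : J → ℤˣ) : ℝ := ∏ j ∈ S, sg (e j)

omit [DecidableEq J] in
theorem chi_mul (S : Finset J) (e f : J → ℤˣ) : chi S (e * f) = chi S e * chi S f := by
  simp only [chi, Pi.mul_apply, sg_mul, Finset.prod_mul_distrib]

omit [DecidableEq J] in
theorem chi_sq (S : Finset J) (e : J → ℤˣ) : chi S e * chi S e = 1 := by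
  rw [chi, ← Finset.prod_mul_distrib]
  simp only [sg_sq, Finset.prod_const_one]

variable [Fintype J]

/-- number of sign vectors -/
noncomputable def nW (J : Type) [Fintype J] [DecidableEq J] : ℝ := (Fintype.card (J → ℤˣ) : ℝ)

theorem nW_ne_zero : nW J ≠ 0 := by
  unfold nW
  exact_mod_cast Fintype.card_ne_zero

/-- projection to the isotypic component -/
noncomputable def pj (S : Finset J) (i : ℕ) : K.C i →ₗ[ℝ] K.C i :=
  (nW J)⁻¹ • ∑ e : J → ℤˣ, chi S e • (K.ρ i (Rf e) : K.C i →ₗ[ℝ] K.C i)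

theorem pj_apply (S : Finset J) (i : ℕ) (c : K.C i) :
    K.pj S i c = (nW J)⁻¹ • ∑ e : J → ℤˣ, chi S e • K.ρ i (Rf e) c := by
  simp [pj, LinearMap.sum_apply]

/-- `c` transforms under sign changes by the character of `S` -/
def Typ (S : Finset J) (i : ℕ) (c : K.C i) : Prop := ∀ e : J → ℤˣ, K.ρ i (Rf e) c = chi S e • c

theorem pj_ρ (S : Finset J) (i : ℕ) (f : J → ℤˣ) (c : K.C i) :
    K.pj S i (K.ρ i (Rf f) c) = chi S f • K.pj S i c := by
  rw [pj_apply, pj_apply, smul_comm (chi S f)]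
  congr 1
  rw [Finset.smul_sum, ← Equiv.sum_comp (Equiv.mulRight f)
    (fun e => chi S f • chi S e • (K.ρ i (Rf e)) c)]
  apply Finset.sum_congr rfl
  intro e _
  rw [Equiv.coe_mulRight, chi_mul, Rf_mul, K.ρ_mul, smul_smul, mul_comm (chi S e) (chi S f),
    ← mul_assoc, chi_sq, one_mul]

theorem typ_pj (S : Finset J) (i : ℕ) (c : K.C i) : K.Typ S i (K.pj S i c) := by
  intro f
  rw [pj_apply, map_smul, map_sum, smul_comm (chi S f)]
  congr 1
  rw [Finset.smul_sum, ← Equiv.sum_comp (Equiv.mulLeft f)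
    (fun e => chi S f • chi S e • (K.ρ i (Rf e)) c)]
  apply Finset.sum_congr rfl
  intro e _
  rw [Equiv.coe_mulLeft, chi_mul, Rf_mul, K.ρ_mul, smul_smul, map_smul, ← mul_assoc, chi_sq,
    one_mul]

theorem pj_of_typ {S : Finset J} {i : ℕ} {c : K.C i} (h : K.Typ S i c) : K.pj S i c = c := by
  rw [pj_apply]
  have : ∀ e ∈ (Finset.univ : Finset (J → ℤˣ)), chi S e • K.ρ i (Rf e) c = c := by
    intro e _
    rw [h e, smul_smul, chi_sq, one_smul]
  rw [Finset.sum_congr rfl this, Finset.sum_const, Finset.card_univ, ← Nat.cast_smul_eq_nsmul ℝ,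
    smul_smul]
  have h2 : (nW J)⁻¹ * (Fintype.card (J → ℤˣ) : ℝ) = 1 := inv_mul_cancel₀ nW_ne_zero
  rw [h2, one_smul]

theorem pj_mem {S : Finset J} {i : ℕ} {V : Submodule ℝ (K.C i)}
    (hV : ∀ (e : J → ℤˣ) (c : K.C i), c ∈ V → K.ρ i (Rf e) c ∈ V) {c : K.C i} (hc : c ∈ V) :
    K.pj S i c ∈ V := by
  rw [pj_apply]
  apply Submodule.smul_mem
  apply Submodule.sum_mem
  intro e _
  exact Submodule.smul_mem _ _ (hV e c hc)

theorem pj_d (S : Finset J) (i : ℕ) (c : K.C (i + 1)) :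
    K.pj S i (K.d i c) = K.d i (K.pj S (i + 1) c) := by
  rw [pj_apply, pj_apply, map_smul, map_sum]
  congr 1
  apply Finset.sum_congr rfl
  intro e _
  rw [map_smul, K.ρd]

theorem Cyc_pj {A : Finset J} (S : Finset J) (i : ℕ) {c : K.C i} (hc : K.Cyc A i c) :
    K.Cyc A i (K.pj S i c) := by
  rw [pj_apply]
  apply K.Cyc_smul
  apply K.Cyc_sum
  intro e _
  exact K.Cyc_smul i _ (K.Cyc_stable i _ hc)

theorem sum_chi (e : J → ℤˣ) : ∑ S : Finset J, chi S e = if e = 1 then nW J else 0 := by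
  have h : ∑ S : Finset J, chi S e = ∏ j : J, (1 + sg (e j)) := by
    rw [Finset.prod_one_add]
    simp only [Finset.powerset_univ]
    rfl
  rw [h]
  split_ifs with he
  · subst he
    simp only [Pi.one_apply, sg_one]
    rw [Finset.prod_const, nW, Fintype.card_fun, Finset.card_univ]
    norm_num
  · obtain ⟨j, hj⟩ : ∃ j, e j ≠ 1 := by
      by_contra hcon
      push Not at hcon
      exact he (funext hcon)
    apply Finset.prod_eq_zero (Finset.mem_univ j)
    rcases Int.units_eq_one_or (e j) with h1 | h1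
    · exact absurd h1 hj
    · rw [h1, sg_neg_one]; ring

theorem sum_pj (i : ℕ) (c : K.C i) : ∑ S : Finset J, K.pj S i c = c := by
  have h1 : ∀ S : Finset J, K.pj S i c = (nW J)⁻¹ • ∑ e : J → ℤˣ, chi S e • K.ρ i (Rf e) c :=
    fun S => K.pj_apply S i c
  simp_rw [h1]
  rw [← Finset.smul_sum, Finset.sum_comm]
  simp_rw [← Finset.sum_smul, sum_chi]
  rw [Finset.sum_eq_single (1 : J → ℤˣ)]
  · rw [if_pos rfl, Rf_one, K.ρ_one, smul_smul, inv_mul_cancel₀ nW_ne_zero, one_smul]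
  · intro e _ he
    rw [if_neg he, zero_smul]
  · intro h
    exact absurd (Finset.mem_univ _) h

end char

end GC

end Pool.Agent.Helper4.Lip
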