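import Pool.Agent.Helper4.Lip.Alg

set_option autoImplicit false

namespace Pool.Agent.Helper4.Lip

open Finset

set_option linter.unusedSectionVars false

variable {J : Type} [Fintype J] [DecidableEq J]

omit [Fintype J] in
theorem chi_mulSingle_mem {S : Finset J} {j : J} (h : j ∈ S) :
    GC.chi S (Pi.mulSingle j (-1)) = -1 := by
  rw [GC.chi, Finset.prod_eq_single j]
  · rw [Pi.mulSingle_eq_same, sg_neg_one]
  · intro k _ hk
    rw [Pi.mulSingle_eq_of_ne hk, sg_one]
  · intro h'
    exact absurd h h'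

omit [Fintype J] in
theorem chi_mulSingle_not_mem {S : Finset J} {j : J} (h : j ∉ S) :
    GC.chi S (Pi.mulSingle j (-1)) = 1 := by
  rw [GC.chi]
  apply Finset.prod_eq_one
  intro k hk
  have : k ≠ j := fun h' => h (h' ▸ hk)
  rw [Pi.mulSingle_eq_of_ne this, sg_one]

omit [Fintype J] in
theorem chi_symmDiff (S : Finset J) (l : J) (e : J → ℤˣ) :
    GC.chi (symmDiff S {l}) e = GC.chi S e * sg (e l) := by
  by_cases h : l ∈ S
  · have h1 : symmDiff S {l} = S.erase l := by
      ext k
      simp only [Finset.mem_symmDiff, Finset.mem_singleton, Finset.mem_erase]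
      constructor
      · rintro (⟨h1, h2⟩ | ⟨h1, h2⟩)
        · exact ⟨h2, h1⟩
        · subst h1; exact absurd h h2
      · rintro ⟨h1, h2⟩
        exact Or.inl ⟨h2, h1⟩
    rw [h1, GC.chi, GC.chi, ← Finset.prod_erase_mul S _ h, mul_assoc, sg_sq, mul_one]
  · have h1 : symmDiff S {l} = insert l S := by
      ext k
      simp only [Finset.mem_symmDiff, Finset.mem_singleton, Finset.mem_insert]
      constructor
      · rintro (⟨h1, h2⟩ | ⟨h1, h2⟩)
        · exact Or.inr h1
        · exact Or.inl h1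
      · rintro (rfl | h2)
        · exact Or.inr ⟨rfl, h⟩
        · exact Or.inl ⟨h2, fun h3 => h (h3 ▸ h2)⟩
    rw [h1, GC.chi, GC.chi, Finset.prod_insert h, mul_comm]

omit [Fintype J] in
theorem card_symmDiff_ne (S : Finset J) (l : J) : (symmDiff S {l}).card ≠ S.card := by
  by_cases h : l ∈ S
  · have h1 : symmDiff S {l} = S.erase l := by
      ext k
      simp only [Finset.mem_symmDiff, Finset.mem_singleton, Finset.mem_erase]
      constructor
      · rintro (⟨h1, h2⟩ | ⟨h1, h2⟩)
        · exact ⟨h2, h1⟩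
        · subst h1; exact absurd h h2
      · rintro ⟨h1, h2⟩
        exact Or.inl ⟨h2, h1⟩
    rw [h1, Finset.card_erase_of_mem h]
    have := Finset.card_pos.mpr ⟨l, h⟩
    omega
  · have h1 : symmDiff S {l} = insert l S := by
      ext k
      simp only [Finset.mem_symmDiff, Finset.mem_singleton, Finset.mem_insert]
      constructor
      · rintro (⟨h1, h2⟩ | ⟨h1, h2⟩)
        · exact Or.inr h1
        · exact Or.inl h1
      · rintro (rfl | h2)
        · exact Or.inr ⟨rfl, h⟩
        · exact Or.inl ⟨h2, fun h3 => h (h3 ▸ h2)⟩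
    rw [h1, Finset.card_insert_of_notMem h]
    omega

omit [Fintype J] in
/-- commutation of a sign change with a one-coordinate translation -/
theorem Rf_mul_Tr_single (e : J → ℤˣ) (l : J) (t : ℝ) :
    Rf e * Tr (Pi.single l t) = Tr (Pi.single l (sg (e l) * t)) * Rf e := by
  rw [mul_Tr]
  congr 1
  congr 1
  funext k
  by_cases hk : k = l
  · subst hk; simp [Rf]
  · simp [hk]

omit [Fintype J] in
theorem Tr_single_inv (l : J) (t : ℝ) : (Tr (Pi.single l t) : Motion J)⁻¹ = Tr (Pi.single l (-t)) := by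
  rw [inv_eq_iff_mul_eq_one, ← Tr_add, ← Pi.single_add, add_neg_cancel, Pi.single_zero, Tr_zero]

namespace GC

variable (K : GC J)

/-- the vanishing statement for the quotient by the translations in the directions of `A` -/
def P (A : Finset J) : Prop := ∀ (i : ℕ) (S : Finset J) (c : K.C i), K.Cyc A i c → K.Typ S i c →
  ¬ (S ⊆ A ∧ S.card = i) → c ∈ K.B A i

variable {K}

theorem Cyc_sub {A : Finset J} (i : ℕ) {c c' : K.C i} (hc : K.Cyc A i c) (hc' : K.Cyc A i c') :
    K.Cyc A i (c - c') := by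
  have h := K.Cyc_add i hc (K.Cyc_smul i (-1) hc')
  rwa [neg_one_smul, ← sub_eq_add_neg] at h

theorem Q_typ {A : Finset J} (hP : K.P A) (i : ℕ) (S : Finset J) (c : K.C i) (hc : K.Cyc A i c)
    (hT : K.Typ S i c) (l : J) (t : ℝ) :
    K.ρ i (Tr (Pi.single l t)) c - c ∈ K.B A i := by
  by_cases hS : S ⊆ A ∧ S.card = i
  · -- the good case
    set h : Motion J := Tr (Pi.single l (t / 2)) with hh
    set m : J → ℤˣ := Pi.mulSingle l (-1) with hm
    have hml : m l = -1 := Pi.mulSingle_eq_same l (-1)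
    have hmm : Rf m * Rf m = (1 : Motion J) := by
      rw [← Rf_mul, ← Rf_one]
      congr 1
      funext k
      simp [Int.units_mul_self]
    set y := K.ρ i h c with hy
    set y' := y - chi S m • K.ρ i (Rf m) y with hy'
    have hcomm : ∀ e : J → ℤˣ, e l = 1 → K.ρ i (Rf e) y = chi S e • y := by
      intro e he
      rw [hy, ← K.ρ_mul, hh, Rf_mul_Tr_single, he, sg_one, one_mul, K.ρ_mul, hT e, map_smul]
    have hy1 : ∀ e : J → ℤˣ, e l = 1 → K.ρ i (Rf e) y' = chi S e • y' := by
      intro e he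
      have h1 : Rf e * Rf m = Rf m * Rf e := by rw [← Rf_mul, ← Rf_mul, mul_comm]
      rw [hy', map_sub, map_smul, hcomm e he, ← K.ρ_mul, h1, K.ρ_mul, hcomm e he, map_smul,
        smul_sub, smul_comm (chi S m)]
    have hmy : K.ρ i (Rf m) (K.ρ i (Rf m) y) = y := by
      have h0 := (K.ρ_mul i (Rf m) (Rf m) y).symm
      rw [hmm, K.ρ_one] at h0
      exact h0
    have hy2 : K.ρ i (Rf m) y' = - (chi S m • y') := by
      rw [hy', map_sub, map_smul, hmy, smul_sub, smul_smul, chi_sq, one_smul]
      abel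
    have htyp : K.Typ (symmDiff S {l}) i y' := by
      intro e
      rw [chi_symmDiff]
      rcases Int.units_eq_one_or (e l) with h1 | h1
      · rw [hy1 e h1, h1, sg_one, mul_one]
      · have h2 : e = m * (m * e) := by
          rw [← mul_assoc]
          have : m * m = 1 := by
            funext k
            simp [Int.units_mul_self]
          rw [this, one_mul]
        have h3 : (m * e) l = 1 := by
          rw [Pi.mul_apply, hml, h1]; rfl
        rw [h1, sg_neg_one]
        have h4 : K.ρ i (Rf e) y' = K.ρ i (Rf m) (K.ρ i (Rf (m * e)) y') := by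
          rw [← K.ρ_mul, ← Rf_mul, ← h2]
        rw [h4, hy1 _ h3, map_smul, hy2, chi_mul, smul_neg, smul_smul]
        have h5 : chi S m * chi S e * chi S m = chi S e := by
          have := chi_sq S m
          calc chi S m * chi S e * chi S m = (chi S m * chi S m) * chi S e := by ring
            _ = chi S e := by rw [this, one_mul]
        rw [h5, mul_neg_one, neg_smul]
    have hcyc : K.Cyc A i y' :=
      Cyc_sub i (K.Cyc_stable i _ hc) (K.Cyc_smul i _ (K.Cyc_stable i _ (K.Cyc_stable i _ hc)))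
    have hB : y' ∈ K.B A i := by
      apply hP i _ y' hcyc htyp
      rintro ⟨_, h2⟩
      exact card_symmDiff_ne S l (h2.trans hS.2.symm)
    have hfin := K.B_stable h hB
    have h6 : K.ρ i (Rf m) y = chi S m • K.ρ i h⁻¹ c := by
      rw [hy, ← K.ρ_mul, hh, Rf_mul_Tr_single, hml, sg_neg_one, neg_one_mul, ← Tr_single_inv,
        K.ρ_mul, hT m, map_smul]
    have h7 : K.ρ i h y' = K.ρ i (Tr (Pi.single l t)) c - c := by
      rw [hy', h6, smul_smul, chi_sq, one_smul, map_sub, K.ρ_self_inv, hy, ← K.ρ_mul, hh, ← Tr_add,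
        ← Pi.single_add, add_halves]
    rwa [h7] at hfin
  · have h1 := hP i S c hc hT hS
    exact Submodule.sub_mem _ (K.B_stable _ h1) h1

theorem Q_single {A : Finset J} (hP : K.P A) (i : ℕ) (c : K.C i) (hc : K.Cyc A i c) (l : J)
    (t : ℝ) : K.ρ i (Tr (Pi.single l t)) c - c ∈ K.B A i := by
  have h1 : K.ρ i (Tr (Pi.single l t)) c - c = ∑ S : Finset J,
      (K.ρ i (Tr (Pi.single l t)) (K.pj S i c) - K.pj S i c) := by
    rw [Finset.sum_sub_distrib, ← map_sum, K.sum_pj]
  rw [h1]
  apply Submodule.sum_mem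
  intro S _
  exact Q_typ hP i S _ (K.Cyc_pj S i hc) (K.typ_pj S i c) l t

theorem Q_all {A : Finset J} (hP : K.P A) (i : ℕ) (c : K.C i) (hc : K.Cyc A i c) (v : J → ℝ) :
    K.ρ i (Tr v) c - c ∈ K.B A i := by
  have key : ∀ s : Finset J, K.ρ i (Tr (∑ l ∈ s, Pi.single l (v l))) c - c ∈ K.B A i := by
    intro s
    induction s using Finset.induction_on with
    | empty =>
      rw [Finset.sum_empty, Tr_zero, K.ρ_one, sub_self]
      exact Submodule.zero_mem _
    | insert l s hl ih =>
      rw [Finset.sum_insert hl, Tr_add, K.ρ_mul]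
      have h1 : K.ρ i (Tr (Pi.single l (v l))) (K.ρ i (Tr (∑ l ∈ s, Pi.single l (v l))) c) - c =
        K.ρ i (Tr (Pi.single l (v l))) (K.ρ i (Tr (∑ l ∈ s, Pi.single l (v l))) c - c) +
          (K.ρ i (Tr (Pi.single l (v l))) c - c) := by
        rw [map_sub]; abel
      rw [h1]
      exact Submodule.add_mem _ (K.B_stable _ ih) (Q_single hP i c hc l (v l))
  have := key Finset.univ
  rwa [Finset.univ_sum_single] at this

theorem mem_U_insert {A : Finset J} {l : J} {i : ℕ} {x : K.C i} (hx : x ∈ K.U (insert l A) i) :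
    ∃ u ∈ K.U A i, ∃ a, x = u + (K.ρ i (τ l) a - a) := by
  induction hx using Submodule.span_induction with
  | mem x hx =>
    obtain ⟨j, hj, c, rfl⟩ := hx
    rcases Finset.mem_insert.mp hj with rfl | hj
    · exact ⟨0, Submodule.zero_mem _, c, by rw [zero_add]⟩
    · exact ⟨_, K.sub_mem_U hj c, 0, by simp⟩
  | zero => exact ⟨0, Submodule.zero_mem _, 0, by simp⟩
  | add x y _ _ hx hy =>
    obtain ⟨u, hu, a, rfl⟩ := hx
    obtain ⟨w, hw, b, rfl⟩ := hy
    refine ⟨u + w, Submodule.add_mem _ hu hw, a + b, ?_⟩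
    rw [map_add]; abel
  | smul r x _ hx =>
    obtain ⟨u, hu, a, rfl⟩ := hx
    refine ⟨r • u, Submodule.smul_mem _ r hu, r • a, ?_⟩
    rw [map_smul, smul_add, smul_sub]

variable (K)

/-- translations in new directions act without fixed vectors -/
def Inj : Prop := ∀ (i : ℕ) (A : Finset J) (l : J), l ∉ A → ∀ c : K.C i,
  K.ρ i (τ l) c - c ∈ K.U A i → c ∈ K.U A i

/-- acyclicity in positive degrees -/
def Acyc : Prop := ∀ (i : ℕ) (c : K.C (i + 1)), K.d i c = 0 → ∃ b, K.d (i + 1) b = c

/-- augmentation -/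
def Aug : Prop := ∃ ε : K.C 0 →ₗ[ℝ] ℝ, (∀ g c, ε (K.ρ 0 g c) = ε c) ∧
  ∀ c, ε c = 0 → ∃ b, K.d 0 b = c

variable {K}

theorem mem_of_two_smul {V : Type} [AddCommGroup V] [Module ℝ V] {W : Submodule ℝ V} {x : V}
    {r : ℝ} (hr : r ≠ 0) (h : r • x ∈ W) : x ∈ W := by
  have := W.smul_mem r⁻¹ h
  rwa [smul_smul, inv_mul_cancel₀ hr, one_smul] at this

theorem chi_ne_zero (S : Finset J) (e : J → ℤˣ) : chi S e ≠ 0 := by
  intro h
  have := chi_sq S e
  rw [h] at this
  norm_num at this

theorem P_empty (hac : K.Acyc) (haug : K.Aug) : K.P ∅ := by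
  intro i S c hc hT hS
  cases i with
  | zero =>
    have hne : S.Nonempty := by
      rw [Finset.nonempty_iff_ne_empty]
      rintro rfl
      exact hS ⟨subset_rfl, rfl⟩
    obtain ⟨j, hj⟩ := hne
    obtain ⟨ε, hε, hε'⟩ := haug
    have h1 := hT (Pi.mulSingle j (-1))
    rw [chi_mulSingle_mem hj] at h1
    have h2 := hε (Rf (Pi.mulSingle j (-1))) c
    rw [h1, map_smul] at h2
    have h3 : ε c = 0 := by
      simp only [neg_smul, one_smul] at h2
      linarith
    obtain ⟨b, rfl⟩ := hε' c h3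
    exact K.d_mem_B _ _ b
  | succ k =>
    have h0 : K.d k c = 0 := by
      have h1 : K.d k c ∈ K.U ∅ k := hc
      have h2 : K.U ∅ k = ⊥ := by
        rw [U, Submodule.span_eq_bot]
        rintro x ⟨j, hj, _⟩
        exact absurd hj (Finset.notMem_empty j)
      rw [h2, Submodule.mem_bot] at h1
      exact h1
    obtain ⟨b, rfl⟩ := hac k c h0
    exact K.d_mem_B _ _ b

theorem P_insert (hinj : K.Inj) {A : Finset J} {l : J} (hl : l ∉ A) (ih : K.P A) :
    K.P (insert l A) := by
  intro i S c hc hT hS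
  cases i with
  | zero =>
    apply K.B_mono (Finset.subset_insert l A)
    apply ih 0 S c trivial hT
    rintro ⟨_, h2⟩
    rw [Finset.card_eq_zero] at h2
    subst h2
    exact hS ⟨Finset.empty_subset _, rfl⟩
  | succ k =>
    obtain ⟨u, hu, a, ha⟩ := mem_U_insert (show K.d k c ∈ K.U (insert l A) k from hc)
    set m : J → ℤˣ := Pi.mulSingle l (-1) with hm
    have hml : m l = -1 := Pi.mulSingle_eq_same l (-1)
    -- (1)
    have hcyca : K.Cyc A k a := by
      cases k with
      | zero => trivial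
      | succ k =>
        show K.d k a ∈ K.U A k
        apply hinj k A l hl
        have h1 := K.dd k c
        rw [ha, map_add, map_sub, ← K.ρd] at h1
        have h2 : K.ρ k (τ l) (K.d k a) - K.d k a = - K.d k u := by
          rw [eq_neg_iff_add_eq_zero, add_comm]
          exact h1
        rw [h2]
        exact Submodule.neg_mem _ (K.d_U hu)
    -- types of the boundary
    have htd : ∀ e, K.ρ k (Rf e) (K.d k c) = chi S e • K.d k c := by
      intro e
      rw [K.ρd, hT e, map_smul]
    -- (2)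
    have h2 : ∀ e : J → ℤˣ, e l = 1 → K.ρ k (Rf e) a - chi S e • a ∈ K.U A k := by
      intro e he
      apply hinj k A l hl
      have hcom : Rf e * τ l = τ l * Rf e := by
        rw [τ, Rf_mul_Tr_single, he, sg_one, one_mul]
      have h3 := htd e
      rw [ha, map_add, map_sub, ← K.ρ_mul, hcom, K.ρ_mul, smul_add, smul_sub] at h3
      have h4 : K.ρ k (τ l) (K.ρ k (Rf e) a - chi S e • a) - (K.ρ k (Rf e) a - chi S e • a) =
          chi S e • u - K.ρ k (Rf e) u := by
        rw [map_sub, map_smul]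
        have h5 : K.ρ k (τ l) (K.ρ k (Rf e) a) = chi S e • u + (chi S e • K.ρ k (τ l) a -
            chi S e • a) - K.ρ k (Rf e) u + K.ρ k (Rf e) a := by
          rw [← h3]; abel
        rw [h5]; abel
      rw [h4]
      exact Submodule.sub_mem _ (Submodule.smul_mem _ _ hu) (K.U_stable _ hu)
    -- (3)
    have h3 : K.ρ k (τ l)⁻¹ (K.ρ k (Rf m) a) + chi S m • a ∈ K.U A k := by
      apply hinj k A l hl
      have hcom : Rf m * τ l = (τ l)⁻¹ * Rf m := by
        rw [τ, Rf_mul_Tr_single, hml, sg_neg_one, neg_one_mul, Tr_single_inv]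
      have h3 := htd m
      rw [ha, map_add, map_sub, ← K.ρ_mul, hcom, K.ρ_mul, smul_add, smul_sub] at h3
      have h4 : K.ρ k (τ l) (K.ρ k (τ l)⁻¹ (K.ρ k (Rf m) a) + chi S m • a) -
          (K.ρ k (τ l)⁻¹ (K.ρ k (Rf m) a) + chi S m • a) = K.ρ k (Rf m) u - chi S m • u := by
        rw [map_add, map_smul, K.ρ_self_inv]
        have h5 : K.ρ k (τ l)⁻¹ (K.ρ k (Rf m) a) = chi S m • u + (chi S m • K.ρ k (τ l) a -
            chi S m • a) - K.ρ k (Rf m) u + K.ρ k (Rf m) a := by
          rw [← h3]; abel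
        rw [h5]; abel
      rw [h4]
      exact Submodule.sub_mem _ (K.U_stable _ hu) (Submodule.smul_mem _ _ hu)
    -- (4)
    have h4 : a ∈ K.B A k := by
      rw [← K.sum_pj k a]
      apply Submodule.sum_mem
      intro S' _
      by_cases hag : ∀ j, j ≠ l → (j ∈ S' ↔ j ∈ S)
      · by_cases hgood : S' ⊆ A ∧ S'.card = k
        · have hlS' : l ∉ S' := fun h => hl (hgood.1 h)
          by_cases hlS : l ∈ S
          · exfalso
            have hSS : S = insert l S' := by
              ext j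
              rw [Finset.mem_insert]
              by_cases hj : j = l
              · subst hj; simp [hlS]
              · rw [hag j hj]; simp [hj]
            apply hS
            rw [hSS]
            refine ⟨Finset.insert_subset_insert l hgood.1, ?_⟩
            rw [Finset.card_insert_of_notMem hlS', hgood.2]
          · have hSS : S' = S := by
              ext j
              by_cases hj : j = l
              · subst hj; simp [hlS, hlS']
              · exact hag j hj
            subst hSS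
            have hchi : chi S' m = 1 := chi_mulSingle_not_mem hlS
            rw [hchi, one_smul] at h3
            have h5 := K.U_stable (τ l) h3
            rw [map_add, K.ρ_self_inv] at h5
            have h6 := Q_all ih k a hcyca (Pi.single l 1)
            have h7 : K.ρ k (Rf m) a + a ∈ K.B A k := by
              have h8 := Submodule.sub_mem _ (K.U_le_B A k h5) h6
              have h9 : K.ρ k (Rf m) a + K.ρ k (τ l) a - (K.ρ k (Tr (Pi.single l 1)) a - a) =
                K.ρ k (Rf m) a + a := by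
                rw [show (τ l : Motion J) = Tr (Pi.single l 1) from rfl]; abel
              rwa [h9] at h8
            have h10 := K.pj_mem (S := S') (fun e c hc => K.B_stable _ hc) h7
            rw [map_add, K.pj_ρ, hchi, one_smul, ← two_smul ℝ] at h10
            exact mem_of_two_smul two_ne_zero h10
        · exact ih k S' _ (K.Cyc_pj S' k hcyca) (K.typ_pj S' k a) hgood
      · push Not at hag
        obtain ⟨j, hjl, hj⟩ := hag
        apply K.U_le_B
        have he : (Pi.mulSingle j (-1) : J → ℤˣ) l = 1 := Pi.mulSingle_eq_of_ne (Ne.symm hjl) _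
        have h5 := h2 _ he
        have h6 := K.pj_mem (S := S') (fun e c hc => K.U_stable _ hc) h5
        rw [map_sub, K.pj_ρ, map_smul, ← sub_smul] at h6
        apply mem_of_two_smul _ h6
        rcases hj with ⟨hj1, hj2⟩ | ⟨hj1, hj2⟩
        · rw [chi_mulSingle_mem hj1, chi_mulSingle_not_mem hj2]; norm_num
        · rw [chi_mulSingle_not_mem hj1, chi_mulSingle_mem hj2]; norm_num
    -- (5)
    obtain ⟨_, ⟨b, rfl⟩, u3, hu3, hab⟩ := Submodule.mem_sup.mp h4
    set c1 := c - (K.ρ (k + 1) (τ l) b - b) with hc1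
    have hcyc1 : K.Cyc A (k + 1) c1 := by
      show K.d k c1 ∈ K.U A k
      rw [hc1, map_sub, map_sub, ← K.ρd, ha, ← hab, map_add]
      have h5 : u + (K.ρ k (τ l) (K.d k b) + K.ρ k (τ l) u3 - (K.d k b + u3)) -
          (K.ρ k (τ l) (K.d k b) - K.d k b) = u + (K.ρ k (τ l) u3 - u3) := by abel
      rw [h5]
      exact Submodule.add_mem _ hu (Submodule.sub_mem _ (K.U_stable _ hu3) hu3)
    -- (6)
    have h6 : K.pj S (k + 1) c1 ∈ K.B A (k + 1) := by
      apply ih (k + 1) S _ (K.Cyc_pj S (k + 1) hcyc1) (K.typ_pj S (k + 1) c1)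
      rintro ⟨h7, h8⟩
      exact hS ⟨h7.trans (Finset.subset_insert l A), h8⟩
    -- (7)
    have h7 : c = K.pj S (k + 1) c1 + K.pj S (k + 1) (K.ρ (k + 1) (τ l) b - b) := by
      rw [← map_add, hc1, sub_add_cancel, K.pj_of_typ hT]
    rw [h7]
    apply Submodule.add_mem
    · exact K.B_mono (Finset.subset_insert l A) _ h6
    · apply K.U_le_B
      exact K.pj_mem (fun e c hc => K.U_stable _ hc) (K.sub_mem_U (Finset.mem_insert_self l A) b)

theorem P_all (hinj : K.Inj) (hac : K.Acyc) (haug : K.Aug) (A : Finset J) : K.P A := by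
  induction A using Finset.induction_on with
  | empty => exact P_empty hac haug
  | insert l A hl ih => exact P_insert hinj hl ih

section transfer

variable (K)

/-- the submodule generated by the `g c - c`, `g ∈ G` -/
def KG (G : Subgroup (Motion J)) (i : ℕ) : Submodule ℝ (K.C i) :=
  Submodule.span ℝ {x | ∃ g ∈ G, ∃ c, x = K.ρ i g c - c}

variable {K}

theorem sub_mem_KG {G : Subgroup (Motion J)} {i : ℕ} {g : Motion J} (hg : g ∈ G) (c : K.C i) :
    K.ρ i g c - c ∈ K.KG G i := Submodule.subset_span ⟨g, hg, c, rfl⟩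

/-- elements acting trivially modulo `U` -/
def triv (K : GC J) (A : Finset J) (i : ℕ) : Subgroup (Motion J) where
  carrier := {g | ∀ c : K.C i, K.ρ i g c - c ∈ K.U A i}
  one_mem' := by
    intro c
    rw [K.ρ_one, sub_self]
    exact Submodule.zero_mem _
  mul_mem' := by
    intro g h hg hh c
    rw [K.ρ_mul]
    have h1 := Submodule.add_mem _ (K.U_stable g (hh c)) (hg c)
    rwa [map_sub, sub_add_sub_cancel] at h1
  inv_mem' := by
    intro g hg c
    have h1 := Submodule.neg_mem _ (hg (K.ρ i g⁻¹ c))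
    rwa [K.ρ_self_inv, neg_sub] at h1

theorem mem_triv {A : Finset J} {i : ℕ} {g : Motion J} :
    g ∈ K.triv A i ↔ ∀ c : K.C i, K.ρ i g c - c ∈ K.U A i := Iff.rfl

/-- integral translations act trivially modulo `U` -/
theorem int_mem_triv (i : ℕ) (u : J → ℤ) : Tr (fun j => (u j : ℝ)) ∈ K.triv Finset.univ i := by
  have h1 : ∀ l, τ l ∈ K.triv Finset.univ i := fun l c => K.sub_mem_U (Finset.mem_univ l) c
  have h2 : ∀ (l : J) (n : ℕ), Tr (Pi.single l (n : ℝ)) ∈ K.triv Finset.univ i := by
    intro l n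
    induction n with
    | zero =>
      rw [Nat.cast_zero, Pi.single_zero, Tr_zero]
      exact Subgroup.one_mem _
    | succ n ih =>
      rw [Nat.cast_succ, Pi.single_add, Tr_add]
      exact Subgroup.mul_mem _ ih (h1 l)
  have h3 : ∀ (l : J) (n : ℤ), Tr (Pi.single l (n : ℝ)) ∈ K.triv Finset.univ i := by
    intro l n
    obtain ⟨n, rfl | rfl⟩ := n.eq_nat_or_neg
    · exact_mod_cast h2 l n
    · have := Subgroup.inv_mem _ (h2 l n)
      rw [Tr_single_inv] at this
      push_cast
      exact this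
  have key : ∀ s : Finset J, Tr (∑ l ∈ s, Pi.single l (u l : ℝ)) ∈ K.triv Finset.univ i := by
    intro s
    induction s using Finset.induction_on with
    | empty =>
      rw [Finset.sum_empty, Tr_zero]
      exact Subgroup.one_mem _
    | insert l s hl ih =>
      rw [Finset.sum_insert hl, Tr_add]
      exact Subgroup.mul_mem _ (h3 l _) ih
  have := key Finset.univ
  rwa [Finset.univ_sum_single] at this

theorem transfer (G : Subgroup (Motion J)) (hT : ∀ j, (τ j : Motion J) ∈ G)
    (hint : ∀ g ∈ G, g.s = 1 → ∃ u : J → ℤ, g.v = fun j => (u j : ℝ))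
    (hchi : ∀ S : Finset J, 1 ≤ S.card → S.card + 2 ≤ Fintype.card J → ∃ g ∈ G, chi S g.s = -1)
    (hP : K.P Finset.univ) (k : ℕ) (hk : k + 3 ≤ Fintype.card J) (c : K.C (k + 1))
    (hc : K.d k c ∈ K.KG G k) :
    c ∈ LinearMap.range (K.d (k + 1)) ⊔ K.KG G (k + 1) := by
  classical
  -- coset representatives
  let F : Finset (J → ℤˣ) := Finset.univ.filter (fun e => ∃ g ∈ G, g.s = e)
  have hF : ∀ e, e ∈ F ↔ ∃ g ∈ G, g.s = e := by
    intro e
    simp [F]
  have hrep : ∀ e : J → ℤˣ, ∃ g : Motion J, g ∈ G ∧ (e ∈ F → g.s = e) := by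
    intro e
    by_cases he : e ∈ F
    · obtain ⟨g, hg, hge⟩ := (hF e).mp he
      exact ⟨g, hg, fun _ => hge⟩
    · exact ⟨1, G.one_mem, fun h => absurd h he⟩
  choose f hfG hfs using hrep
  have htriv : ∀ (i : ℕ) (g : Motion J), g ∈ G → g.s = 1 → g ∈ K.triv Finset.univ i := by
    intro i g hg hgs
    obtain ⟨u, hu⟩ := hint g hg hgs
    have : g = Tr (fun j => (u j : ℝ)) := by
      rw [eq_Tr_mul_Rf g, hgs, hu, Rf_one, mul_one]
    rw [this]
    exact int_mem_triv i u
  have hmulF : ∀ (h : Motion J), h ∈ G → ∀ e, e ∈ F → h.s * e ∈ F := by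
    intro h hh e he
    obtain ⟨g, hg, hge⟩ := (hF e).mp he
    exact (hF _).mpr ⟨h * g, G.mul_mem hh hg, by rw [Motion.mul_s, hge]⟩
  -- the transfer
  let N : ∀ i, K.C i → K.C i := fun i c => ∑ e ∈ F, K.ρ i (f e) c
  have hss : ∀ e : J → ℤˣ, e * e = 1 := by
    intro e
    funext j
    simp [Int.units_mul_self]
  have hreindex : ∀ (h : Motion J), h ∈ G → ∀ i (c : K.C i),
      ∑ e ∈ F, K.ρ i (f (h.s * e)) c = N i c := by
    intro h hh i c
    apply Finset.sum_bij (fun e _ => h.s * e) (fun e he => hmulF h hh e he)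
    · intro e1 _ e2 _ h12
      exact mul_left_cancel h12
    · intro e he
      refine ⟨h.s * e, hmulF h hh e he, ?_⟩
      rw [← mul_assoc, hss, one_mul]
    · intro e _
      rfl
  -- right multiplication
  have hright : ∀ (h : Motion J), h ∈ G → ∀ i (c : K.C i),
      N i (K.ρ i h c) - N i c ∈ K.U Finset.univ i := by
    intro h hh i c
    rw [← hreindex h hh i c]
    show ∑ e ∈ F, K.ρ i (f e) (K.ρ i h c) - ∑ e ∈ F, K.ρ i (f (h.s * e)) c ∈ _
    rw [← Finset.sum_sub_distrib]
    apply Submodule.sum_mem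
    intro e he
    rw [← K.ρ_mul]
    have h1 : f e * h * (f (h.s * e))⁻¹ ∈ K.triv Finset.univ i := by
      apply htriv
      · exact G.mul_mem (G.mul_mem (hfG e) hh) (G.inv_mem (hfG _))
      · rw [Motion.mul_s, Motion.mul_s, Motion.inv_s, hfs e he, hfs _ (hmulF h hh e he),
          mul_comm e h.s, hss]
    have h2 := h1 (K.ρ i (f (h.s * e)) c)
    rw [← K.ρ_mul, inv_mul_cancel_right] at h2
    exact h2
  -- left multiplication
  have hleft : ∀ (h : Motion J), h ∈ G → ∀ i (c : K.C i),
      K.ρ i h (N i c) - N i c ∈ K.U Finset.univ i := by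
    intro h hh i c
    rw [← hreindex h hh i c]
    have h0 : K.ρ i h (∑ e ∈ F, K.ρ i (f (h.s * e)) c) = K.ρ i h (N i c) := by
      rw [hreindex h hh i c]
    rw [h0]
    show K.ρ i h (∑ e ∈ F, K.ρ i (f e) c) - ∑ e ∈ F, K.ρ i (f (h.s * e)) c ∈ _
    rw [map_sum, ← Finset.sum_sub_distrib]
    apply Submodule.sum_mem
    intro e he
    rw [← K.ρ_mul]
    have h1 : h * f e * (f (h.s * e))⁻¹ ∈ K.triv Finset.univ i := by
      apply htriv
      · exact G.mul_mem (G.mul_mem hh (hfG e)) (G.inv_mem (hfG _))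
      · rw [Motion.mul_s, Motion.mul_s, Motion.inv_s, hfs e he, hfs _ (hmulF h hh e he), hss]
    have h2 := h1 (K.ρ i (f (h.s * e)) c)
    rw [← K.ρ_mul, inv_mul_cancel_right] at h2
    exact h2
  have hNadd : ∀ i (x y : K.C i), N i (x + y) = N i x + N i y := by
    intro i x y
    show ∑ e ∈ F, K.ρ i (f e) (x + y) = _
    simp only [map_add, Finset.sum_add_distrib]
    rfl
  have hNsmul : ∀ i (r : ℝ) (x : K.C i), N i (r • x) = r • N i x := by
    intro i r x
    show ∑ e ∈ F, K.ρ i (f e) (r • x) = r • ∑ e ∈ F, K.ρ i (f e) x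
    simp only [map_smul, Finset.smul_sum]
  have hNd : ∀ i (x : K.C (i + 1)), K.d i (N (i + 1) x) = N i (K.d i x) := by
    intro i x
    show K.d i (∑ e ∈ F, K.ρ (i + 1) (f e) x) = ∑ e ∈ F, K.ρ i (f e) (K.d i x)
    rw [map_sum]
    apply Finset.sum_congr rfl
    intro e _
    rw [K.ρd]
  have hNK : ∀ i (x : K.C i), x ∈ K.KG G i → N i x ∈ K.U Finset.univ i := by
    intro i x hx
    induction hx using Submodule.span_induction with
    | mem x hx =>
      obtain ⟨g, hg, c, rfl⟩ := hx
      have h1 : N i (K.ρ i g c - c) = N i (K.ρ i g c) - N i c := by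
        rw [sub_eq_add_neg, ← neg_one_smul ℝ c, hNadd, hNsmul, neg_one_smul, ← sub_eq_add_neg]
      rw [h1]
      exact hright g hg i c
    | zero =>
      have : N i (0 : K.C i) = 0 := by
        show ∑ e ∈ F, K.ρ i (f e) 0 = 0
        simp
      rw [this]; exact Submodule.zero_mem _
    | add x y _ _ hx hy => rw [hNadd]; exact Submodule.add_mem _ hx hy
    | smul r x _ hx => rw [hNsmul]; exact Submodule.smul_mem _ r hx
  -- the averaged cycle
  set y := N (k + 1) c with hy
  have hycyc : K.Cyc Finset.univ (k + 1) y := by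
    show K.d k y ∈ _
    rw [hy, hNd]
    exact hNK k _ hc
  have hyB : y ∈ K.B Finset.univ (k + 1) := by
    rw [← K.sum_pj (k + 1) y]
    apply Submodule.sum_mem
    intro S _
    by_cases hS : S.card = k + 1
    · obtain ⟨g, hg, hgS⟩ := hchi S (by omega) (by omega)
      have h1 := hleft g hg (k + 1) c
      have h2 : K.ρ (k + 1) g y = K.ρ (k + 1) (Tr g.v) (K.ρ (k + 1) (Rf g.s) y) := by
        rw [← K.ρ_mul]
        congr 2
        exact eq_Tr_mul_Rf g
      have h3 := Q_all hP (k + 1) (K.ρ (k + 1) (Rf g.s) y) (K.Cyc_stable _ _ hycyc) g.v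
      rw [← h2] at h3
      have h4 : K.ρ (k + 1) (Rf g.s) y - y ∈ K.B Finset.univ (k + 1) := by
        have h5 := Submodule.sub_mem _ (K.U_le_B _ _ h1) h3
        have h6 : K.ρ (k + 1) g (N (k + 1) c) - N (k + 1) c -
            (K.ρ (k + 1) g y - K.ρ (k + 1) (Rf g.s) y) = K.ρ (k + 1) (Rf g.s) y - y := by
          rw [← hy]; abel
        rwa [h6] at h5
      have h7 := K.pj_mem (S := S) (fun e c hc => K.B_stable _ hc) h4
      rw [map_sub, K.pj_ρ, hgS] at h7
      have h8 : (-1 : ℝ) • K.pj S (k + 1) y - K.pj S (k + 1) y = (-2 : ℝ) • K.pj S (k + 1) y := by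
        rw [show (-2 : ℝ) = -1 - 1 by norm_num, sub_smul, one_smul]
      rw [h8] at h7
      exact mem_of_two_smul (by norm_num) h7
    · apply hP (k + 1) S _ (K.Cyc_pj S _ hycyc) (K.typ_pj S _ y)
      rintro ⟨_, h2⟩
      exact hS h2
  have hUK : K.U Finset.univ (k + 1) ≤ K.KG G (k + 1) := by
    apply Submodule.span_mono
    rintro x ⟨j, _, c, rfl⟩
    exact ⟨τ j, hT j, c, rfl⟩
  have hyK : y ∈ LinearMap.range (K.d (k + 1)) ⊔ K.KG G (k + 1) :=
    (sup_le_sup_left hUK _) hyB
  have hdiff : y - (F.card : ℝ) • c ∈ K.KG G (k + 1) := by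
    have h1 : (F.card : ℝ) • c = ∑ e ∈ F, c := by
      rw [Finset.sum_const, Nat.cast_smul_eq_nsmul]
    rw [h1, hy]
    show ∑ e ∈ F, K.ρ (k + 1) (f e) c - ∑ e ∈ F, c ∈ _
    rw [← Finset.sum_sub_distrib]
    apply Submodule.sum_mem
    intro e _
    exact sub_mem_KG (hfG e) c
  have hFne : (F.card : ℝ) ≠ 0 := by
    have h1 : (1 : J → ℤˣ) ∈ F := (hF 1).mpr ⟨1, G.one_mem, rfl⟩
    have h2 : F.card ≠ 0 := Finset.card_ne_zero_of_mem h1
    exact_mod_cast h2
  apply mem_of_two_smul hFne
  have h1 : (F.card : ℝ) • c = y - (y - (F.card : ℝ) • c) := by abel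
  rw [h1]
  exact Submodule.sub_mem _ hyK (Submodule.mem_sup_right hdiff)

end transfer

end GC

end Pool.Agent.Helper4.Lip
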