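import Pool.Agent.Helper4.Lip.Euc

set_option autoImplicit false

namespace Pool.Agent.Helper4.Lip

open Finset

set_option linter.unusedSectionVars false

variable {J : Type} [Fintype J] [DecidableEq J]

theorem Sx_zero_ext {Y : Type} [TopologicalSpace Y] {σ σ' : Sx Y 0}
    (h : σ (stdSimplex.vertex 0) = σ' (stdSimplex.vertex 0)) : σ = σ' := by
  ext t : 1
  have ht : t = stdSimplex.vertex 0 := Subsingleton.elim _ _
  rw [ht, h]

/-- the segment from the origin to `x` as a singular simplex -/
noncomputable def seg (x : EuclideanSpace ℝ J) : Sx (EuclideanSpace ℝ J) 1 :=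
  ⟨fun t => (t.1 1 : ℝ) • x, by
    have h : Continuous (fun t : stdSimplex ℝ (Fin 2) => (t.1 1 : ℝ)) :=
      (continuous_apply _).comp continuous_subtype_val
    exact h.smul continuous_const⟩

/-- the constant simplex at the origin -/
noncomputable def org : Sx (EuclideanSpace ℝ J) 0 := ContinuousMap.const _ 0

theorem seg_face_zero (σ : Sx (EuclideanSpace ℝ J) 0) :
    (seg (σ (stdSimplex.vertex 0))).comp (face 0 0) = σ := by
  apply Sx_zero_ext
  show ((stdSimplex.map (Fin.succAbove 0) (stdSimplex.vertex (0 : Fin 1)) : stdSimplex ℝ (Fin 2)).1 1 : ℝ) •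
    σ (stdSimplex.vertex 0) = _
  rw [stdSimplex.map_vertex]
  simp

theorem seg_face_one (x : EuclideanSpace ℝ J) :
    (seg x).comp (face 0 1) = org := by
  apply Sx_zero_ext
  show ((stdSimplex.map (Fin.succAbove 1) (stdSimplex.vertex (0 : Fin 1)) : stdSimplex ℝ (Fin 2)).1 1 : ℝ) •
    x = 0
  rw [stdSimplex.map_vertex]
  simp

theorem bd_seg (σ : Sx (EuclideanSpace ℝ J) 0) (r : ℝ) :
    bd (EuclideanSpace ℝ J) 0 (Finsupp.single (seg (σ (stdSimplex.vertex 0))) r) =
      Finsupp.single σ r - Finsupp.single org r := by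
  unfold bd
  rw [Fin.sum_univ_two]
  simp only [LinearMap.add_apply, LinearMap.smul_apply, Finsupp.lmapDomain_apply,
    Finsupp.mapDomain_single]
  rw [seg_face_zero, seg_face_one]
  simp [sub_eq_add_neg]

theorem euc_aug : (euc J).Aug := by
  refine ⟨Finsupp.lsum ℝ (fun _ => LinearMap.id), ?_, ?_⟩
  · intro g c
    exact Finsupp.sum_mapDomain_index (f := act g) (s := (c : Ch (EuclideanSpace ℝ J) 0))
      (h := fun _ r => (r : ℝ)) (by simp) (by simp)
  · intro c
    have key : ∀ c : Ch (EuclideanSpace ℝ J) 0, ∃ b : Ch (EuclideanSpace ℝ J) 1,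
        bd (EuclideanSpace ℝ J) 0 b = c - Finsupp.single org (c.sum fun _ r => r) := by
      intro c
      induction c using Finsupp.induction_linear with
      | zero => exact ⟨0, by simp⟩
      | add c c' hc hc' =>
        obtain ⟨b, hb⟩ := hc
        obtain ⟨b', hb'⟩ := hc'
        refine ⟨b + b', ?_⟩
        rw [map_add, hb, hb', Finsupp.sum_add_index' (by simp) (by simp), Finsupp.single_add]
        abel
      | single σ r =>
        refine ⟨_, (bd_seg σ r).trans ?_⟩
        rw [Finsupp.sum_single_index rfl]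
    intro hc
    obtain ⟨b, hb⟩ := key c
    refine ⟨b, hb.trans ?_⟩
    have : (c : Ch (EuclideanSpace ℝ J) 0).sum (fun _ r => r) = 0 := hc
    rw [this, Finsupp.single_zero, sub_zero]

end Pool.Agent.Helper4.Lip
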