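import Pool.Agent.Helper4.Lip.Defs

set_option autoImplicit false

open CategoryTheory Limits Simplicial

namespace Pool.Agent.Helper4.Lip

/-! ### Chains of a simplicial set with real coefficients -/

section SSetPart

variable (X : SSet.{0})

/-- the coefficients -/
abbrev RR : ModuleCat.{0} ℝ := ModuleCat.of ℝ ℝ

/-- comparison map from finitely supported functions to simplicial chains -/
noncomputable def toCh (n : ℕ) : (X _⦋n⦌ →₀ ℝ) →ₗ[ℝ] (X.chainComplex RR).X n :=
  Finsupp.lsum ℝ (fun x => (X.ιChainComplex (R := RR) x).hom)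

theorem toCh_single (n : ℕ) (x : X _⦋n⦌) (r : ℝ) :
    toCh X n (Finsupp.single x r) = (X.ιChainComplex (R := RR) x).hom r := by
  simp [toCh]

/-- the inverse map -/
noncomputable def fromCh (n : ℕ) : (X.chainComplex RR).X n ⟶ ModuleCat.of ℝ (X _⦋n⦌ →₀ ℝ) :=
  (X.isColimitChainComplexXCofan RR n).desc
    (Cofan.mk _ (fun x => ModuleCat.ofHom (Finsupp.lsingle (R := ℝ) (M := ℝ) x)))

theorem ι_fromCh (n : ℕ) (x : X _⦋n⦌) :
    X.ιChainComplex (R := RR) x ≫ fromCh X n = ModuleCat.ofHom (Finsupp.lsingle (R := ℝ) (M := ℝ) x) :=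
  (X.isColimitChainComplexXCofan RR n).fac _ ⟨x⟩

theorem fromCh_toCh (n : ℕ) (c : X _⦋n⦌ →₀ ℝ) : (fromCh X n).hom (toCh X n c) = c := by
  have : (fromCh X n).hom ∘ₗ toCh X n = LinearMap.id := by
    apply Finsupp.lhom_ext
    intro x r
    rw [LinearMap.comp_apply, toCh_single]
    have h := ι_fromCh X n x
    have h2 := congrArg (fun f => f.hom r) h
    exact h2
  exact congrArg (fun f => f c) this

theorem toCh_fromCh (n : ℕ) (c : (X.chainComplex RR).X n) : toCh X n ((fromCh X n).hom c) = c := by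
  have : fromCh X n ≫ ModuleCat.ofHom (toCh X n) = 𝟙 _ := by
    apply SSet.chainComplex_hom_ext
    intro x
    rw [← Category.assoc, ι_fromCh, Category.comp_id]
    ext
    show toCh X n (Finsupp.lsingle x (1 : ℝ)) = _
    rw [Finsupp.lsingle_apply, toCh_single]
  exact congrArg (fun f => f.hom c) this

/-- The differential on finitely supported functions. -/
noncomputable def sbd (n : ℕ) : (X _⦋n + 1⦌ →₀ ℝ) →ₗ[ℝ] (X _⦋n⦌ →₀ ℝ) :=
  ∑ j : Fin (n + 2), (-1 : ℝ) ^ (j : ℕ) • Finsupp.lmapDomain ℝ ℝ (X.δ j)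

theorem toCh_sbd (n : ℕ) (c : X _⦋n + 1⦌ →₀ ℝ) :
    toCh X n (sbd X n c) = ((X.chainComplex RR).d (n + 1) n).hom (toCh X (n + 1) c) := by
  have : toCh X n ∘ₗ sbd X n = ((X.chainComplex RR).d (n + 1) n).hom ∘ₗ toCh X (n + 1) := by
    apply Finsupp.lhom_ext
    intro x r
    rw [LinearMap.comp_apply, LinearMap.comp_apply, toCh_single]
    have h := X.ιChainComplex_d (R := RR) x
    have h2 := congrArg (fun f => f.hom r) h
    have h3 : ((X.chainComplex RR).d (n + 1) n).hom ((X.ιChainComplex (R := RR) x).hom r) =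
      (∑ i : Fin (n + 2), (-1) ^ i.val • X.ιChainComplex (R := RR) (X.δ i x)).hom r := h2
    rw [h3]
    rw [sbd]
    simp only [LinearMap.coe_sum, Finset.sum_apply, LinearMap.smul_apply, map_sum, map_smul,
      Finsupp.lmapDomain_apply, Finsupp.mapDomain_single, toCh_single, ModuleCat.hom_sum]
    apply Finset.sum_congr rfl
    intro i _
    rcases Nat.even_or_odd (i : ℕ) with hi | hi
    · simp [hi.neg_one_pow]
    · simp [hi.neg_one_pow]
  exact congrArg (fun f => f c) this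

/-- Exactness in terms of finitely supported functions. -/
theorem isZero_iff (k : ℕ) : IsZero (X.homology RR (k + 1)) ↔
    ∀ z : X _⦋k + 1⦌ →₀ ℝ, sbd X k z = 0 → ∃ w, sbd X (k + 1) w = z := by
  rw [← HomologicalComplex.exactAt_iff_isZero_homology,
    HomologicalComplex.exactAt_iff' _ (k + 2) (k + 1) k (by simp) (by simp),
    ShortComplex.moduleCat_exact_iff]
  constructor
  · intro h z hz
    have h1 : ((X.chainComplex RR).d (k + 1) k).hom (toCh X (k + 1) z) = 0 := by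
      rw [← toCh_sbd, hz, map_zero]
    obtain ⟨w, hw⟩ := h (toCh X (k + 1) z) h1
    refine ⟨(fromCh X (k + 2)).hom w, ?_⟩
    have h2 : toCh X (k + 1) (sbd X (k + 1) ((fromCh X (k + 2)).hom w)) = toCh X (k + 1) z := by
      rw [toCh_sbd, toCh_fromCh]
      exact hw
    have h3 := congrArg (fromCh X (k + 1)).hom h2
    rwa [fromCh_toCh, fromCh_toCh] at h3
  · intro h x hx
    have h1 : sbd X k ((fromCh X (k + 1)).hom x) = 0 := by
      have h2 : toCh X k (sbd X k ((fromCh X (k + 1)).hom x)) = 0 := by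
        rw [toCh_sbd, toCh_fromCh]
        exact hx
      have h3 := congrArg (fromCh X k).hom h2
      rwa [fromCh_toCh, map_zero] at h3
    obtain ⟨w, hw⟩ := h _ h1
    refine ⟨toCh X (k + 2) w, ?_⟩
    show ((X.chainComplex RR).d (k + 2) (k + 1)).hom (toCh X (k + 2) w) = x
    rw [← toCh_sbd, hw, toCh_fromCh]

theorem sbd_sbd (k : ℕ) (c : X _⦋k + 2⦌ →₀ ℝ) : sbd X k (sbd X (k + 1) c) = 0 := by
  have h1 : toCh X k (sbd X k (sbd X (k + 1) c)) = 0 := by
    rw [toCh_sbd, toCh_sbd]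
    have h2 := (X.chainComplex RR).d_comp_d (k + 2) (k + 1) k
    have h3 := congrArg (fun f => f.hom (toCh X (k + 2) c)) h2
    exact h3
  have h3 := congrArg (fromCh X k).hom h1
  rwa [fromCh_toCh, map_zero] at h3

end SSetPart

/-! ### Singular chains of a topological space -/

section Top

/-- singular simplices -/
abbrev Sx (Y : Type) [TopologicalSpace Y] (n : ℕ) : Type := C(stdSimplex ℝ (Fin (n + 1)), Y)

/-- the inclusion of the `j`-th face -/
noncomputable def face (n : ℕ) (j : Fin (n + 2)) :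
    C(stdSimplex ℝ (Fin (n + 1)), stdSimplex ℝ (Fin (n + 2))) :=
  ⟨stdSimplex.map (Fin.succAbove j), stdSimplex.continuous_map _⟩

/-- singular chains with real coefficients -/
abbrev Ch (Y : Type) [TopologicalSpace Y] (n : ℕ) : Type := Sx Y n →₀ ℝ

variable (Y : Type) [TopologicalSpace Y]

/-- the boundary -/
noncomputable def bd (n : ℕ) : Ch Y (n + 1) →ₗ[ℝ] Ch Y n :=
  ∑ j : Fin (n + 2), (-1 : ℝ) ^ (j : ℕ) • Finsupp.lmapDomain ℝ ℝ (fun σ : Sx Y (n + 1) => σ.comp (face n j))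

/-- the singular set -/
noncomputable abbrev sing : SSet.{0} := TopCat.toSSet.obj (TopCat.of Y)

/-- identification of the simplices -/
noncomputable def eqv (n : ℕ) : (sing Y) _⦋n⦌ ≃ Sx Y n :=
  TopCat.toSSetObjEquiv (TopCat.of Y) (Opposite.op ⦋n⦌)

theorem eqv_δ (n : ℕ) (j : Fin (n + 2)) (x : (sing Y) _⦋n + 1⦌) :
    eqv Y n ((sing Y).δ j x) = (eqv Y (n + 1) x).comp (face n j) := by
  rfl

/-- identification of the chains -/
noncomputable def eqvCh (n : ℕ) : ((sing Y) _⦋n⦌ →₀ ℝ) ≃ₗ[ℝ] Ch Y n :=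
  Finsupp.domLCongr (eqv Y n)

theorem eqvCh_sbd (n : ℕ) (c : (sing Y) _⦋n + 1⦌ →₀ ℝ) :
    eqvCh Y n (sbd (sing Y) n c) = bd Y n (eqvCh Y (n + 1) c) := by
  have : (eqvCh Y n).toLinearMap ∘ₗ sbd (sing Y) n = bd Y n ∘ₗ (eqvCh Y (n + 1)).toLinearMap := by
    apply Finsupp.lhom_ext
    intro x r
    simp only [LinearMap.comp_apply, LinearEquiv.coe_coe, sbd, bd, LinearMap.coe_sum,
      Finset.sum_apply, LinearMap.smul_apply, map_sum, map_smul,
      Finsupp.lmapDomain_apply, Finsupp.mapDomain_single, eqvCh, Finsupp.domLCongr_single, eqv_δ]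
  exact congrArg (fun f => f c) this

theorem bd_bd (n : ℕ) (c : Ch Y (n + 2)) : bd Y n (bd Y (n + 1) c) = 0 := by
  obtain ⟨c', rfl⟩ := (eqvCh Y (n + 2)).surjective c
  rw [← eqvCh_sbd, ← eqvCh_sbd, sbd_sbd, map_zero]

theorem vanishes_iff (k : ℕ) : RealHomologyVanishes Y (k + 1) ↔
    ∀ z : Ch Y (k + 1), bd Y k z = 0 → ∃ w, bd Y (k + 1) w = z := by
  have h1 : RealHomologyVanishes Y (k + 1) ↔ IsZero ((sing Y).homology RR (k + 1)) := Iff.rfl
  rw [h1, isZero_iff]
  constructor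
  · intro h z hz
    obtain ⟨z', rfl⟩ := (eqvCh Y (k + 1)).surjective z
    rw [← eqvCh_sbd, LinearEquiv.map_eq_zero_iff] at hz
    obtain ⟨w, rfl⟩ := h z' hz
    exact ⟨eqvCh Y (k + 2) w, (eqvCh_sbd Y (k + 1) w).symm⟩
  · intro h z hz
    obtain ⟨w, hw⟩ := h (eqvCh Y (k + 1) z) (by rw [← eqvCh_sbd, hz, map_zero])
    obtain ⟨w', rfl⟩ := (eqvCh Y (k + 2)).surjective w
    refine ⟨w', ?_⟩
    rw [← eqvCh_sbd] at hw
    exact (eqvCh Y (k + 1)).injective hw

end Top

end Pool.Agent.Helper4.Lip
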