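import Pool.Agent.Helper4.Lip.Chain

set_option autoImplicit false

open CategoryTheory Limits Simplicial AlgebraicTopology

namespace Pool.Agent.Helper4.Lip

/-- Contractible spaces have no real homology in positive degrees. -/
theorem vanishes_of_contractible (Y : Type) [TopologicalSpace Y] [ContractibleSpace Y] (k : ℕ) :
    RealHomologyVanishes Y (k + 1) := by
  unfold RealHomologyVanishes
  obtain ⟨y₀, ⟨H⟩⟩ := id_nullhomotopic Y
  let H' : TopCat.Homotopy (𝟙 (TopCat.of Y)) (TopCat.ofHom (ContinuousMap.const Y y₀)) := H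
  have h1 := H'.congr_homologyMap_singularChainComplexFunctor (ModuleCat.of ℝ ℝ) (k + 1)
  let F := (singularHomologyFunctor (ModuleCat.{0} ℝ) (k + 1)).obj (ModuleCat.of ℝ ℝ)
  have h1' : F.map (𝟙 (TopCat.of Y)) = F.map (TopCat.ofHom (ContinuousMap.const Y y₀)) := h1
  have h2 : (TopCat.ofHom (ContinuousMap.const Y y₀)) =
      (TopCat.ofHom (ContinuousMap.const Y PUnit.unit) : TopCat.of Y ⟶ TopCat.of PUnit) ≫
        (TopCat.ofHom (ContinuousMap.const PUnit y₀) : TopCat.of PUnit ⟶ TopCat.of Y) := rfl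
  have h3 : IsZero (F.obj (TopCat.of PUnit)) :=
    isZero_singularHomologyFunctor_of_totallyDisconnectedSpace (ModuleCat.{0} ℝ) (k + 1)
      (ModuleCat.of ℝ ℝ) (TopCat.of PUnit) (Nat.succ_ne_zero k)
  rw [IsZero.iff_id_eq_zero]
  show 𝟙 (F.obj (TopCat.of Y)) = 0
  rw [← F.map_id, h1', h2, F.map_comp, h3.eq_zero_of_tgt (F.map _), zero_comp]

theorem acyclic {Y : Type} [TopologicalSpace Y] [ContractibleSpace Y] (k : ℕ) (z : Ch Y (k + 1))
    (hz : bd Y k z = 0) : ∃ w, bd Y (k + 1) w = z :=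
  (vanishes_iff Y k).mp (vanishes_of_contractible Y k) z hz

end Pool.Agent.Helper4.Lip
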