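import Mathlib

set_option autoImplicit false

open scoped ENNReal NNReal

namespace Pool.Agent.Helper4.Lip

/-- The metric of `S` is a length metric: the distance of two points is the infimum of the lengths
of the paths joining them. -/
def IsLengthMetric (S : Type) [MetricSpace S] : Prop :=
  ∀ x y : S, edist x y = ⨅ γ : Path x y, eVariationOn γ Set.univ

/-- `H_i(S, ℝ) = 0`, where `H_i( , ℝ)` is singular homology with real coefficients. -/
def RealHomologyVanishes (S : Type) [TopologicalSpace S] (i : ℕ) : Prop :=
  CategoryTheory.Limits.IsZero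
    (((AlgebraicTopology.singularHomologyFunctor (ModuleCat.{0} ℝ) i).obj (ModuleCat.of ℝ ℝ)).obj
      (TopCat.of S))

variable {X S : Type} [MetricSpace X] [MetricSpace S]

/-- `F = (f_t)`, `t ∈ [0,1]`, is a curve in the set `Lip_c(X → S)` of `c`-Lipschitz maps: every
`f_t` is `c`-Lipschitz, and the track `t ↦ f_t(x)` of every point `x` is continuous. -/
def IsLipCurve (c : ℝ≥0) (F : unitInterval → X → S) : Prop :=
  (∀ t, LipschitzWith c (F t)) ∧ ∀ x, Continuous fun t => F t x

/-- The length of a curve: the supremum of the lengths of the tracks of the individual points. -/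
noncomputable def curveLength (F : unitInterval → X → S) : ℝ≥0∞ :=
  ⨆ x, eVariationOn (fun t => F t x) Set.univ

/-- `dist_c(f, g)`: the infimum of the lengths of the curves in `Lip_c(X → S)` from `f` to `g`. -/
noncomputable def lipDist (c : ℝ≥0) (f g : X → S) : ℝ≥0∞ :=
  ⨅ F : {F : unitInterval → X → S // IsLipCurve c F ∧ F 0 = f ∧ F 1 = g}, curveLength F.1

/-- `diam_c(Lip_l(X → S))`: the supremum of `dist_c(f, g)` over all `l`-Lipschitz maps
`f, g : X → S`. -/
noncomputable def lipDiam (c l : ℝ≥0) (X S : Type) [MetricSpace X] [MetricSpace S] : ℝ≥0∞ :=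
  ⨆ f : {f : X → S // LipschitzWith l f}, ⨆ g : {g : X → S // LipschitzWith l g},
    lipDist c f.1 g.1

end Pool.Agent.Helper4.Lip
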