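import Pool.Agent.Helper4.Lip.Alg2
import Pool.Agent.Helper4.Lip.Contr

set_option autoImplicit false

namespace Pool.Agent.Helper4.Lip

open Finset

set_option linter.unusedSectionVars false

variable {J : Type} [Fintype J] [DecidableEq J]

/-- the homeomorphism of Euclidean space given by a motion -/
noncomputable def gmap (g : Motion J) : C(EuclideanSpace ℝ J, EuclideanSpace ℝ J) :=
  ⟨fun x => g • x, (isometry_smul (EuclideanSpace ℝ J) g).continuous⟩

/-- the action on singular simplices -/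
noncomputable def act (g : Motion J) {i : ℕ} (σ : Sx (EuclideanSpace ℝ J) i) :
    Sx (EuclideanSpace ℝ J) i := (gmap g).comp σ

theorem act_apply (g : Motion J) {i : ℕ} (σ : Sx (EuclideanSpace ℝ J) i)
    (t : stdSimplex ℝ (Fin (i + 1))) : act g σ t = g • σ t := rfl

theorem act_mul (g h : Motion J) {i : ℕ} (σ : Sx (EuclideanSpace ℝ J) i) :
    act (g * h) σ = act g (act h σ) := by
  ext t : 1
  rw [act_apply, act_apply, act_apply, mul_smul]

theorem act_one {i : ℕ} (σ : Sx (EuclideanSpace ℝ J) i) : act 1 σ = σ := by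
  ext t : 1
  rw [act_apply, one_smul]

variable (J) in
/-- singular chains of Euclidean space with the action of motions -/
noncomputable def euc : GC J where
  C i := Ch (EuclideanSpace ℝ J) i
  d i := bd (EuclideanSpace ℝ J) i
  dd i c := bd_bd (EuclideanSpace ℝ J) i c
  ρ i :=
    { toFun := fun g => Finsupp.lmapDomain ℝ ℝ (act g)
      map_one' := by
        have : (act (1 : Motion J) : Sx (EuclideanSpace ℝ J) i → _) = id := funext act_one
        rw [this, Finsupp.lmapDomain_id]
        rfl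
      map_mul' := by
        intro g h
        have : (act (g * h) : Sx (EuclideanSpace ℝ J) i → _) = act g ∘ act h :=
          funext (act_mul g h)
        rw [this, Finsupp.lmapDomain_comp]
        rfl }
  ρd i g c := by
    show Finsupp.lmapDomain ℝ ℝ (act g) (bd (EuclideanSpace ℝ J) i c) =
      bd (EuclideanSpace ℝ J) i (Finsupp.lmapDomain ℝ ℝ (act g) c)
    have : Finsupp.lmapDomain ℝ ℝ (act g) ∘ₗ bd (EuclideanSpace ℝ J) i =
        bd (EuclideanSpace ℝ J) i ∘ₗ Finsupp.lmapDomain ℝ ℝ (act g) := by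
      apply Finsupp.lhom_ext
      intro x r
      simp only [LinearMap.comp_apply, bd, LinearMap.coe_sum,
        Finset.sum_apply, LinearMap.smul_apply, map_sum, map_smul,
        Finsupp.lmapDomain_apply, Finsupp.mapDomain_single]
      rfl
    exact congrArg (fun f => f c) this

theorem euc_ρ_apply (i : ℕ) (g : Motion J) (c : Ch (EuclideanSpace ℝ J) i) :
    (euc J).ρ i g c = Finsupp.mapDomain (act g) c := rfl

theorem euc_acyc : (euc J).Acyc := by
  intro i c hc
  exact acyclic i c hc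

/-- the level of a simplex in direction `l` -/
noncomputable def lev (l : J) {i : ℕ} (σ : Sx (EuclideanSpace ℝ J) i) : ℤ :=
  ⌊(σ (stdSimplex.vertex 0)) l⌋

theorem lev_act_τ_same (l : J) {i : ℕ} (σ : Sx (EuclideanSpace ℝ J) i) :
    lev l (act (GC.τ l) σ) = lev l σ + 1 := by
  unfold lev
  rw [act_apply, Motion.smul_apply]
  simp only [GC.τ, Tr, Pi.one_apply, sg_one, one_mul, Pi.single_eq_same]
  exact Int.floor_add_one _

theorem lev_act_τ_ne {l j : J} (h : j ≠ l) {i : ℕ} (σ : Sx (EuclideanSpace ℝ J) i) :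
    lev l (act (GC.τ j) σ) = lev l σ := by
  unfold lev
  rw [act_apply, Motion.smul_apply]
  simp only [GC.τ, Tr, Pi.one_apply, sg_one, one_mul]
  rw [Pi.single_eq_of_ne (Ne.symm h), add_zero]

/-- projection to the simplices of level at least `s` -/
noncomputable def cut (l : J) (s : ℤ) (i : ℕ) (c : Ch (EuclideanSpace ℝ J) i) :
    Ch (EuclideanSpace ℝ J) i := c.filter (fun σ => s ≤ lev l σ)

theorem cut_add (l : J) (s : ℤ) (i : ℕ) (c c' : Ch (EuclideanSpace ℝ J) i) :
    cut l s i (c + c') = cut l s i c + cut l s i c' := Finsupp.filter_add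

theorem cut_smul (l : J) (s : ℤ) (i : ℕ) (r : ℝ) (c : Ch (EuclideanSpace ℝ J) i) :
    cut l s i (r • c) = r • cut l s i c := Finsupp.filter_smul

theorem cut_zero (l : J) (s : ℤ) (i : ℕ) : cut l s i (0 : Ch (EuclideanSpace ℝ J) i) = 0 :=
  Finsupp.filter_zero _

theorem act_injective (g : Motion J) {i : ℕ} :
    Function.Injective (act g : Sx (EuclideanSpace ℝ J) i → _) := by
  intro σ σ' h
  have := congrArg (act g⁻¹) h
  rwa [← act_mul, ← act_mul, inv_mul_cancel, act_one, act_one] at this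

theorem cut_single_of_le {l : J} {s : ℤ} {i : ℕ} {σ : Sx (EuclideanSpace ℝ J) i} (h : s ≤ lev l σ)
    (r : ℝ) : cut l s i (Finsupp.single σ r) = Finsupp.single σ r := by
  unfold cut
  rw [Finsupp.filter_eq_self_iff]
  intro σ' h'
  have : σ' = σ := by
    by_contra hne
    exact h' (Finsupp.single_eq_of_ne hne)
  rw [this]
  exact h

theorem cut_single_of_not_le {l : J} {s : ℤ} {i : ℕ} {σ : Sx (EuclideanSpace ℝ J) i}
    (h : ¬ s ≤ lev l σ) (r : ℝ) : cut l s i (Finsupp.single σ r) = 0 := by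
  unfold cut
  rw [Finsupp.filter_eq_zero_iff]
  intro σ' h'
  have : σ' ≠ σ := by
    rintro rfl
    exact h h'
  exact Finsupp.single_eq_of_ne this

theorem cut_act {l j : J} (h : j ≠ l) (s : ℤ) (i : ℕ) (c : Ch (EuclideanSpace ℝ J) i) :
    cut l s i (Finsupp.mapDomain (act (GC.τ j)) c) =
      Finsupp.mapDomain (act (GC.τ j)) (cut l s i c) := by
  induction c using Finsupp.induction_linear with
  | zero => rw [cut_zero, Finsupp.mapDomain_zero, cut_zero]
  | add c c' hc hc' => rw [cut_add, Finsupp.mapDomain_add, Finsupp.mapDomain_add, cut_add, hc, hc']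
  | single σ r =>
    rw [Finsupp.mapDomain_single]
    by_cases h1 : s ≤ lev l σ
    · rw [cut_single_of_le h1, cut_single_of_le, Finsupp.mapDomain_single]
      rw [lev_act_τ_ne h]
      exact h1
    · rw [cut_single_of_not_le h1, cut_single_of_not_le, Finsupp.mapDomain_zero]
      rw [lev_act_τ_ne h]
      exact h1

/-- the truncation as a linear map -/
noncomputable def cutL (l : J) (s : ℤ) (i : ℕ) : (euc J).C i →ₗ[ℝ] (euc J).C i where
  toFun c := cut l s i c
  map_add' c c' := cut_add l s i c c'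
  map_smul' r c := cut_smul l s i r c

theorem cutL_ρ {l j : J} (h : j ≠ l) (s : ℤ) (i : ℕ) (c : (euc J).C i) :
    cutL l s i ((euc J).ρ i (GC.τ j) c) = (euc J).ρ i (GC.τ j) (cutL l s i c) :=
  cut_act h s i c

theorem cutL_mem_U {l : J} {A : Finset J} (hl : l ∉ A) (s : ℤ) (i : ℕ)
    {c : (euc J).C i} (hc : c ∈ (euc J).U A i) : cutL l s i c ∈ (euc J).U A i := by
  induction hc using Submodule.span_induction with
  | mem x hx =>
    obtain ⟨j, hj, c, rfl⟩ := hx
    have hne : j ≠ l := fun h => hl (h ▸ hj)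
    rw [map_sub, cutL_ρ hne]
    exact (euc J).sub_mem_U hj _
  | zero => rw [map_zero]; exact Submodule.zero_mem _
  | add x y _ _ hx hy => rw [map_add]; exact Submodule.add_mem _ hx hy
  | smul r x _ hx => rw [map_smul]; exact Submodule.smul_mem _ r hx

theorem lev_pow (l : J) {i : ℕ} (M : ℕ) (σ : Sx (EuclideanSpace ℝ J) i) :
    lev l (act ((GC.τ l) ^ M) σ) = lev l σ + M := by
  induction M generalizing σ with
  | zero => rw [pow_zero, act_one]; simp
  | succ M ih =>
    rw [pow_succ, act_mul, ih, lev_act_τ_same]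
    push_cast
    ring

/-- levels are bounded on the support of a chain -/
theorem exists_bound (l : J) (i : ℕ) (c : Ch (EuclideanSpace ℝ J) i) :
    ∃ N : ℕ, ∀ σ, c σ ≠ 0 → -(N : ℤ) < lev l σ ∧ lev l σ < N := by
  refine ⟨(c.support.sup (fun σ => (lev l σ).natAbs)) + 1, ?_⟩
  intro σ hσ
  have h1 : (lev l σ).natAbs ≤ c.support.sup (fun σ => (lev l σ).natAbs) :=
    Finset.le_sup (f := fun σ => (lev l σ).natAbs) (Finsupp.mem_support_iff.mpr hσ)
  generalize (c.support.sup fun σ => (lev l σ).natAbs) = m at h1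
  omega

theorem cut_low (l : J) (s : ℤ) (i : ℕ) (c : Ch (EuclideanSpace ℝ J) i)
    (h : ∀ σ, c σ ≠ 0 → lev l σ < s) : cut l s i c = 0 := by
  unfold cut
  rw [Finsupp.filter_eq_zero_iff]
  intro σ hσ
  by_contra hne
  exact absurd (h σ hne) (not_lt.mpr hσ)

theorem cut_high (l : J) (s : ℤ) (i : ℕ) (c : Ch (EuclideanSpace ℝ J) i)
    (h : ∀ σ, c σ ≠ 0 → s ≤ lev l σ) : cut l s i c = c := by
  unfold cut
  rw [Finsupp.filter_eq_self_iff]
  exact h

theorem mapDomain_ne_zero (g : Motion J) (i : ℕ) (c : Ch (EuclideanSpace ℝ J) i)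
    (σ : Sx (EuclideanSpace ℝ J) i) (h : Finsupp.mapDomain (act g) c σ ≠ 0) :
    ∃ σ', act g σ' = σ ∧ c σ' ≠ 0 := by
  classical
  have h9 := Finsupp.mapDomain_support (Finsupp.mem_support_iff.mpr h)
  rw [Finset.mem_image] at h9
  obtain ⟨σ', hσ', h10⟩ := h9
  exact ⟨σ', h10, Finsupp.mem_support_iff.mp hσ'⟩

theorem euc_inj : (euc J).Inj := by
  intro i A l hl c hc
  -- all powers of the translation
  have hpow : ∀ N : ℕ, (euc J).ρ i ((GC.τ l) ^ N) c - c ∈ (euc J).U A i := by
    intro N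
    induction N with
    | zero =>
      rw [pow_zero, (euc J).ρ_one, sub_self]
      exact Submodule.zero_mem _
    | succ N ih =>
      rw [pow_succ, (euc J).ρ_mul]
      have h1 := Submodule.add_mem _ ((euc J).U_stable ((GC.τ l) ^ N) hc) ih
      rwa [map_sub, sub_add_sub_cancel] at h1
  obtain ⟨N, hN⟩ := exists_bound l i c
  have h1 := cutL_mem_U hl (N : ℤ) i (hpow (2 * N))
  rw [map_sub] at h1
  have h5 : cutL l N i c = 0 := cut_low l N i c (fun σ hσ => (hN σ hσ).2)
  have h6 : cutL l N i ((euc J).ρ i ((GC.τ l) ^ (2 * N)) c) =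
      (euc J).ρ i ((GC.τ l) ^ (2 * N)) c := by
    apply cut_high
    intro σ hσ
    obtain ⟨σ', rfl, hσ'⟩ := mapDomain_ne_zero _ i c σ hσ
    rw [lev_pow]
    have := (hN σ' hσ').1
    push_cast
    omega
  rw [h5, h6, sub_zero] at h1
  have h4 := (euc J).U_stable ((GC.τ l) ^ (2 * N))⁻¹ h1
  rwa [(euc J).ρ_inv_self] at h4

end Pool.Agent.Helper4.Lip
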