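import Mathlib

set_option autoImplicit false

namespace Pool.Agent.Helper4.Lip

open Metric Set Topology

/-- A group acting by isometries in such a way that no non-trivial element moves any point by less
than some fixed positive amount. -/
class UniformlyFree (G X : Type) [Group G] [MetricSpace X] [MulAction G X] : Prop where
  exists_delta : ∃ δ : ℝ, 0 < δ ∧ ∀ g : G, g ≠ 1 → ∀ x : X, δ ≤ dist (g • x) x

variable (G X : Type) [Group G] [MetricSpace X] [MulAction G X]

/-- The orbit space. -/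
def Q : Type := MulAction.orbitRel.Quotient G X

variable {X}

/-- The projection to the orbit space. -/
def Q.mk (x : X) : Q G X := Quotient.mk'' x

omit [MetricSpace X] in
theorem Q.mk_surjective : Function.Surjective (Q.mk G : X → Q G X) := Quotient.mk''_surjective

omit [MetricSpace X] in
theorem Q.mk_eq_iff {x y : X} : Q.mk G x = Q.mk G y ↔ ∃ g : G, g • y = x :=
  (Quotient.eq'' (s₁ := MulAction.orbitRel G X) (a := x) (b := y)).trans Iff.rfl

variable {G}

theorem bddBelow_dist (x y : X) : BddBelow (Set.range fun g : G => dist x (g • y)) :=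
  ⟨0, by rintro _ ⟨g, rfl⟩; exact dist_nonneg⟩

section isom
variable [IsIsometricSMul G X]

theorem iInf_dist_eq (x y : X) (h k : G) :
    ⨅ g : G, dist (h • x) (g • (k • y)) = ⨅ g : G, dist x (g • y) := by
  have : ∀ g : G, dist (h • x) (g • (k • y)) = dist x ((h⁻¹ * g * k) • y) := by
    intro g
    rw [← dist_smul h⁻¹ (h • x), inv_smul_smul, mul_smul, mul_smul]
  simp_rw [this]
  let e : G ≃ G := (Equiv.mulLeft h⁻¹).trans (Equiv.mulRight k)
  exact e.iInf_congr (fun g => rfl)

variable (G X) in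
/-- distance on the orbit space -/
noncomputable def qdist : Q G X → Q G X → ℝ :=
  Quotient.lift₂ (fun x y : X => ⨅ g : G, dist x (g • y)) (by
    rintro a b a' b' ⟨h, rfl⟩ ⟨k, rfl⟩
    exact iInf_dist_eq a' b' h k)

theorem qdist_mk (x y : X) : qdist G X (Q.mk G x) (Q.mk G y) = ⨅ g : G, dist x (g • y) := rfl

theorem qdist_le (x y : X) (g : G) : qdist G X (Q.mk G x) (Q.mk G y) ≤ dist x (g • y) :=
  ciInf_le (bddBelow_dist x y) g

theorem exists_lt_of_qdist_lt {x y : X} {r : ℝ} (h : qdist G X (Q.mk G x) (Q.mk G y) < r) :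
    ∃ g : G, dist x (g • y) < r := exists_lt_of_ciInf_lt h

theorem qdist_nonneg (p q : Q G X) : 0 ≤ qdist G X p q := by
  obtain ⟨x, rfl⟩ := Q.mk_surjective G p
  obtain ⟨y, rfl⟩ := Q.mk_surjective G q
  exact Real.iInf_nonneg fun _ => dist_nonneg

theorem qdist_self (p : Q G X) : qdist G X p p = 0 := by
  apply le_antisymm _ (qdist_nonneg p p)
  obtain ⟨x, rfl⟩ := Q.mk_surjective G p
  have := qdist_le (G := G) x x 1
  simpa using this

theorem qdist_comm (p q : Q G X) : qdist G X p q = qdist G X q p := by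
  obtain ⟨x, rfl⟩ := Q.mk_surjective G p
  obtain ⟨y, rfl⟩ := Q.mk_surjective G q
  have key : ∀ x y : X, qdist G X (Q.mk G x) (Q.mk G y) ≤ qdist G X (Q.mk G y) (Q.mk G x) := by
    intro x y
    apply le_ciInf
    intro g
    have := qdist_le (G := G) x y g⁻¹
    rw [← dist_smul g, smul_inv_smul, dist_comm] at this
    exact this
  exact le_antisymm (key x y) (key y x)

theorem qdist_triangle (p q r : Q G X) : qdist G X p r ≤ qdist G X p q + qdist G X q r := by
  obtain ⟨x, rfl⟩ := Q.mk_surjective G p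
  obtain ⟨y, rfl⟩ := Q.mk_surjective G q
  obtain ⟨z, rfl⟩ := Q.mk_surjective G r
  apply le_of_forall_pos_le_add
  intro ε hε
  obtain ⟨g, hg⟩ := exists_lt_of_qdist_lt (lt_add_of_pos_right
    (qdist G X (Q.mk G x) (Q.mk G y)) (half_pos hε))
  obtain ⟨h, hh⟩ := exists_lt_of_qdist_lt (lt_add_of_pos_right
    (qdist G X (Q.mk G y) (Q.mk G z)) (half_pos hε))
  have h1 := qdist_le (G := G) x z (g * h)
  have h2 : dist x ((g * h) • z) ≤ dist x (g • y) + dist y (h • z) := by
    rw [mul_smul, ← dist_smul g y]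
    exact dist_triangle _ _ _
  linarith

theorem eq_of_qdist_eq_zero [hU : UniformlyFree G X] {p q : Q G X} (h : qdist G X p q = 0) :
    p = q := by
  obtain ⟨x, rfl⟩ := Q.mk_surjective G p
  obtain ⟨y, rfl⟩ := Q.mk_surjective G q
  obtain ⟨δ, hδ, hfree⟩ := hU.exists_delta
  obtain ⟨g, hg⟩ := exists_lt_of_qdist_lt (x := x) (y := y) (r := δ / 2)
    (by rw [h]; exact half_pos hδ)
  rw [Q.mk_eq_iff]
  refine ⟨g, ?_⟩
  rw [eq_comm, ← dist_le_zero]
  apply le_of_forall_pos_le_add
  intro ε hε
  obtain ⟨k, hk⟩ := exists_lt_of_qdist_lt (x := x) (y := y) (r := min ε (δ / 2))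
    (by rw [h]; exact lt_min hε (half_pos hδ))
  have hgk : k = g := by
    by_contra hne
    have h1 : k * g⁻¹ ≠ 1 := fun h => hne (mul_inv_eq_one.mp h)
    have h2 := hfree _ h1 (g • y)
    rw [mul_smul, inv_smul_smul] at h2
    have h3 := dist_triangle_left (k • y) (g • y) x
    have h4 := lt_of_lt_of_le hk (min_le_right _ _)
    linarith
  subst hgk
  have := lt_of_lt_of_le hk (min_le_left _ _)
  linarith

noncomputable instance [UniformlyFree G X] : MetricSpace (Q G X) where
  dist := qdist G X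
  dist_self := qdist_self
  dist_comm := qdist_comm
  dist_triangle := qdist_triangle
  eq_of_dist_eq_zero := eq_of_qdist_eq_zero

variable [hU : UniformlyFree G X]

theorem dist_mk (x y : X) : dist (Q.mk G x) (Q.mk G y) = ⨅ g : G, dist x (g • y) := rfl

theorem dist_mk_le_smul (x y : X) (g : G) : dist (Q.mk G x) (Q.mk G y) ≤ dist x (g • y) :=
  qdist_le x y g

theorem dist_mk_le (x y : X) : dist (Q.mk G x) (Q.mk G y) ≤ dist x y := by
  simpa using dist_mk_le_smul (G := G) x y 1

theorem exists_smul_lt {x y : X} {r : ℝ} (h : dist (Q.mk G x) (Q.mk G y) < r) :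
    ∃ g : G, dist x (g • y) < r := exists_lt_of_ciInf_lt h

theorem lipschitz_mk : LipschitzWith 1 (Q.mk G : X → Q G X) := by
  apply LipschitzWith.of_dist_le_mul
  intro x y
  simpa using dist_mk_le (G := G) x y

theorem continuous_mk : Continuous (Q.mk G : X → Q G X) := lipschitz_mk.continuous

theorem image_ball (x : X) (r : ℝ) : Q.mk G '' ball x r = ball (Q.mk G x) r := by
  ext p
  constructor
  · rintro ⟨y, hy, rfl⟩
    exact lt_of_le_of_lt (dist_mk_le y x) hy
  · intro hp
    obtain ⟨y, rfl⟩ := Q.mk_surjective G p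
    rw [mem_ball, dist_comm] at hp
    obtain ⟨g, hg⟩ := exists_smul_lt hp
    refine ⟨g • y, ?_, ?_⟩
    · rw [mem_ball, dist_comm]; exact hg
    · rw [Q.mk_eq_iff]; exact ⟨g, rfl⟩

theorem isOpenMap_mk : IsOpenMap (Q.mk G : X → Q G X) := by
  intro U hU'
  rw [Metric.isOpen_iff]
  rintro _ ⟨x, hx, rfl⟩
  obtain ⟨ε, hε, hball⟩ := Metric.isOpen_iff.mp hU' x hx
  refine ⟨ε, hε, ?_⟩
  rw [← image_ball]
  exact Set.image_mono hball

theorem isQuotientMap_mk : IsQuotientMap (Q.mk G : X → Q G X) :=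
  isOpenMap_mk.isQuotientMap continuous_mk (Q.mk_surjective G)

theorem isQuotientCoveringMap_mk : IsQuotientCoveringMap (Q.mk G : X → Q G X) G where
  __ := isQuotientMap_mk
  continuous_const_smul g := (isometry_smul X g).continuous
  apply_eq_iff_mem_orbit {e₁ e₂} := by
    rw [Q.mk_eq_iff]
    rfl
  disjoint e := by
    obtain ⟨δ, hδ, hfree⟩ := hU.exists_delta
    refine ⟨ball e (δ / 2), ball_mem_nhds e (half_pos hδ), ?_⟩
    rintro g ⟨_, ⟨u, hu, rfl⟩, hu'⟩
    by_contra hne
    have h1 := hfree g hne u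
    have h2 := dist_triangle_right (g • u) u e
    rw [mem_ball] at hu
    have hu'' : dist (g • u) e < δ / 2 := hu'
    linarith

theorem isCoveringMap_mk : IsCoveringMap (Q.mk G : X → Q G X) :=
  isQuotientCoveringMap_mk.isCoveringMap

/-- The projection is isometric at small scales. -/
theorem exists_dist_mk_eq : ∃ δ : ℝ, 0 < δ ∧ ∀ x y : X, dist x y ≤ δ →
    dist (Q.mk G x) (Q.mk G y) = dist x y := by
  obtain ⟨δ, hδ, hfree⟩ := hU.exists_delta
  refine ⟨δ / 2, half_pos hδ, fun x y hxy => le_antisymm (dist_mk_le x y) ?_⟩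
  apply le_ciInf
  intro g
  by_cases hg : g = 1
  · subst hg; simp
  · have h1 := hfree g hg y
    have h2 := dist_triangle (g • y) x y
    rw [dist_comm (g • y) x] at h2
    linarith

end isom

end Pool.Agent.Helper4.Lip
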