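import Pool.Agent.Helper4.Lip.Defs
import Pool.Agent.Helper4.Lip.Quot

set_option autoImplicit false

open scoped ENNReal NNReal unitInterval

namespace Pool.Agent.Helper4.Lip

open Metric Set Topology

variable {G X : Type} [Group G] [MetricSpace X] [MulAction G X] [IsIsometricSMul G X]
  [hU : UniformlyFree G X]

theorem edist_mk_eq {δ : ℝ} (hδ : ∀ x y : X, dist x y ≤ δ →
    dist (Q.mk G x) (Q.mk G y) = dist x y) {x y : X} (h : dist x y ≤ δ) :
    edist (Q.mk G x) (Q.mk G y) = edist x y := by
  rw [edist_dist, edist_dist, hδ x y h]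

/-- A path in `X` is not longer than its projection. -/
theorem edist_le_variation (Γ : C(I, X)) :
    edist (Γ 0) (Γ 1) ≤ eVariationOn (fun t => Q.mk G (Γ t)) Set.univ := by
  obtain ⟨δ, hδ, hiso⟩ := exists_dist_mk_eq (G := G) (X := X)
  have huc : UniformContinuous Γ := CompactSpace.uniformContinuous_of_continuous Γ.continuous
  obtain ⟨η, hη, hΓ⟩ := Metric.uniformContinuous_iff.mp huc δ hδ
  obtain ⟨N, hN⟩ := exists_nat_one_div_lt hη
  -- partition points k/(N+1)
  let u : ℕ → I := fun k => Set.projIcc (0:ℝ) 1 zero_le_one ((k : ℝ) / ((N : ℝ) + 1))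
  have hN1 : (0 : ℝ) < (N : ℝ) + 1 := by positivity
  have hmono : Monotone u := by
    intro a b hab
    apply Set.monotone_projIcc
    have : (a : ℝ) ≤ b := by exact_mod_cast hab
    gcongr
  have hu0 : u 0 = 0 := by
    apply Subtype.ext
    simp [u, Set.projIcc]
  have hu1 : u (N + 1) = 1 := by
    apply Subtype.ext
    simp only [u, Set.projIcc]
    have : (((N + 1 : ℕ) : ℝ)) / ((N : ℝ) + 1) = 1 := by
      push_cast
      field_simp
    rw [this]
    simp
  have hstep : ∀ k, dist (Γ (u (k + 1))) (Γ (u k)) ≤ δ := by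
    intro k
    apply le_of_lt
    apply hΓ
    have h1 : dist (u (k + 1)) (u k) ≤ dist (((k + 1 : ℕ) : ℝ) / ((N : ℝ) + 1))
        ((k : ℝ) / ((N : ℝ) + 1)) := by
      rw [Subtype.dist_eq]
      exact (Set.abs_projIcc_sub_projIcc zero_le_one)
    refine lt_of_le_of_lt h1 ?_
    rw [Real.dist_eq]
    have : ((k + 1 : ℕ) : ℝ) / ((N : ℝ) + 1) - (k : ℝ) / ((N : ℝ) + 1) = 1 / ((N : ℝ) + 1) := by
      push_cast
      ring
    rw [this, abs_of_pos (by positivity)]
    exact hN
  have hsum : (∑ i ∈ Finset.range (N + 1),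
      edist (Q.mk G (Γ (u (i + 1)))) (Q.mk G (Γ (u i)))) ≤
      eVariationOn (fun t => Q.mk G (Γ t)) Set.univ :=
    eVariationOn.sum_le (f := fun t => Q.mk G (Γ t)) hmono (fun _ => Set.mem_univ _)
  refine le_trans ?_ hsum
  have hsum' : (∑ i ∈ Finset.range (N + 1),
      edist (Q.mk G (Γ (u (i + 1)))) (Q.mk G (Γ (u i)))) =
      ∑ i ∈ Finset.range (N + 1), edist (Γ (u i)) (Γ (u (i + 1))) := by
    apply Finset.sum_congr rfl
    intro i _
    rw [edist_mk_eq hiso (hstep i), edist_comm]
  rw [hsum']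
  have := edist_le_range_sum_edist (fun i => Γ (u i)) (N + 1)
  rw [hu0, hu1] at this
  exact this

/-- If a map `p ∘ f` can be joined to the constant map `p x₀` by a curve of Lipschitz maps, then the
image of `f` lies within the length of the curve from a single point. -/
theorem exists_center {A : Type} [MetricSpace A] [PreconnectedSpace A] (a₀ : A) (c : ℝ≥0)
    (f : C(A, X)) (x₀ : X) (F : I → A → Q G X) (hF : IsLipCurve c F)
    (h0 : F 0 = fun a => Q.mk G (f a)) (h1 : F 1 = fun _ => Q.mk G x₀) :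
    ∃ q : X, ∀ a, edist (f a) q ≤ curveLength F := by
  have hcov : IsCoveringMap (Q.mk G : X → Q G X) := isCoveringMap_mk
  have hcont : Continuous (fun p : A × I => F p.2 p.1) := by
    apply continuous_prod_of_continuous_lipschitzWith _ c
    · intro a
      exact hF.2 a
    · intro t
      exact hF.1 t
  let H : C(I × A, Q G X) := ⟨fun p => F p.1 p.2, hcont.comp continuous_swap⟩
  have hH0 : ∀ a, H (0, a) = Q.mk G (f a) := fun a => congrFun h0 a
  let L := hcov.liftHomotopy H f hH0
  have hL0 : ∀ a, L (0, a) = f a := hcov.liftHomotopy_zero H f hH0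
  have hL : ∀ p, Q.mk G (L p) = H p := congrFun (hcov.liftHomotopy_lifts H f hH0)
  have hconst : (fun a => L (1, a)) = fun _ => L (1, a₀) := by
    apply hcov.eq_of_comp_eq (g₁ := fun a => L (1, a)) (g₂ := fun _ => L (1, a₀))
    · exact L.continuous.comp (by fun_prop)
    · exact continuous_const
    · funext a
      show Q.mk G (L (1, a)) = Q.mk G (L (1, a₀))
      rw [hL, hL]
      show F 1 a = F 1 a₀
      rw [h1]
    · rfl
  refine ⟨L (1, a₀), fun a => ?_⟩
  have h2 := edist_le_variation (G := G) (X := X) (L.comp ⟨fun t : I => (t, a), by fun_prop⟩)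
  have h3 : (L.comp ⟨fun t : I => (t, a), by fun_prop⟩) 0 = f a := hL0 a
  have h4 : (L.comp ⟨fun t : I => (t, a), by fun_prop⟩) 1 = L (1, a₀) := congrFun hconst a
  rw [h3, h4] at h2
  refine h2.trans ?_
  have h5 : (fun t : I => Q.mk G ((L.comp ⟨fun t : I => (t, a), by fun_prop⟩) t)) =
      fun t => F t a := by
    funext t
    exact hL (t, a)
  rw [h5]
  exact le_iSup (fun x => eVariationOn (fun t => F t x) Set.univ) a

end Pool.Agent.Helper4.Lip
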