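import Pool.Agent.Helper4.Lip.HW
import Pool.Agent.Helper4.Lip.Lower

set_option autoImplicit false

open scoped ENNReal NNReal unitInterval

namespace Pool.Agent.Helper4.Lip

open Metric Set Topology

variable {n : ℕ}

theorem dist_pr_le (x y : EuclideanSpace ℝ (Fin (n + 2))) : dist (pr n x) (pr n y) ≤ dist x y :=
  dist_mk_le x y

theorem lipschitz_pr : LipschitzWith 1 (pr n) := lipschitz_mk

/-- projected segment -/
noncomputable def segPath (x z : EuclideanSpace ℝ (Fin (n + 2))) : Path (pr n x) (pr n z) where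
  toFun t := pr n (AffineMap.lineMap x z (t : ℝ))
  continuous_toFun := continuous_pr.comp (AffineMap.lineMap_continuous.comp continuous_subtype_val)
  source' := by simp
  target' := by simp

theorem segPath_variation (x z : EuclideanSpace ℝ (Fin (n + 2))) :
    eVariationOn (segPath x z) Set.univ ≤ edist x z := by
  have hlip : LipschitzWith (nndist x z) (fun t : ℝ => pr n (AffineMap.lineMap x z t)) := by
    have h1 : LipschitzWith (nndist x z) (fun t : ℝ => (AffineMap.lineMap x z t :
        EuclideanSpace ℝ (Fin (n + 2)))) := lipschitzWith_lineMap x z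
    have h2 := (lipschitz_pr (n := n)).comp h1
    simpa using! h2
  have h3 := (hlip.lipschitzOnWith (s := Set.univ)).comp_eVariationOn_le (g := fun t : I => (t : ℝ))
    (s := Set.univ) (Set.mapsTo_univ _ _)
  have h4 : eVariationOn (fun t : I => (t : ℝ)) Set.univ ≤ 1 := by
    have hm : MonotoneOn (fun t : I => (t : ℝ)) Set.univ := fun a _ b _ hab => hab
    have h5 := hm.eVariationOn_le (a := 0) (b := 1) (Set.mem_univ _) (Set.mem_univ _)
    have h6 : (Set.univ : Set I) ∩ Set.Icc 0 1 = Set.univ := by
      ext t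
      simp only [Set.mem_inter_iff, Set.mem_univ, true_and, iff_true]
      exact ⟨unitInterval.nonneg', unitInterval.le_one'⟩
    rw [h6] at h5
    simpa using h5
  calc eVariationOn (segPath x z) Set.univ
      = eVariationOn ((fun t : ℝ => pr n (AffineMap.lineMap x z t)) ∘ fun t : I => (t : ℝ))
        Set.univ := rfl
    _ ≤ (nndist x z) * eVariationOn (fun t : I => (t : ℝ)) Set.univ := h3
    _ ≤ (nndist x z) * 1 := by gcongr
    _ = edist x z := by rw [mul_one, edist_nndist]

theorem isLengthMetric : IsLengthMetric (M n) := by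
  intro p q
  apply le_antisymm
  · apply le_iInf
    intro γ
    have := eVariationOn.edist_le (f := γ) (s := Set.univ) (x := 0) (y := 1) (Set.mem_univ _)
      (Set.mem_univ _)
    simpa using this
  · obtain ⟨x, rfl⟩ := pr_surjective p
    obtain ⟨y, rfl⟩ := pr_surjective q
    apply ENNReal.le_of_forall_pos_le_add
    intro ε hε _
    obtain ⟨g, hg⟩ := exists_smul_lt (G := HW n) (x := x) (y := y)
      (r := dist (pr n x) (pr n y) + ε) (by
        show dist (pr n x) (pr n y) < dist (pr n x) (pr n y) + ε
        have : (0 : ℝ) < ε := by exact_mod_cast hε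
        linarith)
    have hgy : pr n (g • y) = pr n y := by
      show Q.mk (HW n) _ = Q.mk (HW n) y
      rw [Q.mk_eq_iff]
      exact ⟨g, rfl⟩
    refine (iInf_le _ ((segPath x (g • y)).cast rfl hgy.symm)).trans ?_
    have h1 : eVariationOn ((segPath x (g • y)).cast rfl hgy.symm) Set.univ ≤ edist x (g • y) :=
      segPath_variation x (g • y)
    refine h1.trans ?_
    rw [edist_dist, edist_dist]
    have h2 : (ε : ℝ≥0∞) = ENNReal.ofReal (ε : ℝ) := by rw [ENNReal.ofReal_coe_nnreal]
    rw [h2]
    refine (ENNReal.ofReal_le_ofReal hg.le).trans ?_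
    exact (ENNReal.ofReal_add dist_nonneg ε.2).le

/-- Every point has a ball isometric to a Euclidean ball. -/
theorem locally_euclidean (s : M n) : ∃ ε : ℝ, 0 < ε ∧
    Nonempty (Metric.ball s ε ≃ᵢ Metric.ball (0 : EuclideanSpace ℝ (Fin (n + 2))) ε) := by
  obtain ⟨x, rfl⟩ := pr_surjective s
  obtain ⟨δ, hδ, hiso⟩ := exists_dist_mk_eq (G := HW n) (X := EuclideanSpace ℝ (Fin (n + 2)))
  refine ⟨δ / 2, half_pos hδ, ?_⟩
  have hmem : ∀ y : Metric.ball (0 : EuclideanSpace ℝ (Fin (n + 2))) (δ / 2),
      pr n (x + y) ∈ Metric.ball (pr n x) (δ / 2) := by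
    intro y
    have h1 := dist_pr_le (n := n) (x + y) x
    have h2 : dist (x + (y : EuclideanSpace ℝ (Fin (n + 2)))) x < δ / 2 := by
      have := y.2
      rw [Metric.mem_ball, dist_zero_right] at this
      rwa [dist_eq_norm, add_sub_cancel_left]
    exact lt_of_le_of_lt h1 h2
  let φ : Metric.ball (0 : EuclideanSpace ℝ (Fin (n + 2))) (δ / 2) → Metric.ball (pr n x) (δ / 2) :=
    fun y => ⟨pr n (x + y), hmem y⟩
  have hφ : Isometry φ := by
    apply Isometry.of_dist_eq
    intro y z
    rw [Subtype.dist_eq, Subtype.dist_eq]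
    show dist (Q.mk (HW n) (x + y)) (Q.mk (HW n) (x + z)) = _
    rw [hiso]
    · exact dist_add_left _ _ _
    · rw [dist_add_left]
      have hy := y.2
      have hz := z.2
      rw [Metric.mem_ball] at hy hz
      have := dist_triangle_right (y : EuclideanSpace ℝ (Fin (n + 2))) z 0
      linarith
  have hsurj : Function.Surjective φ := by
    rintro ⟨q, hq⟩
    have hq' : q ∈ Q.mk (HW n) '' Metric.ball x (δ / 2) := by
      rw [image_ball]; exact hq
    obtain ⟨z, hz, rfl⟩ := hq'
    refine ⟨⟨z - x, ?_⟩, ?_⟩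
    · rw [Metric.mem_ball, dist_zero_right, ← dist_eq_norm]
      exact hz
    · apply Subtype.ext
      show pr n (x + (z - x)) = Q.mk (HW n) z
      rw [add_sub_cancel]
      rfl
  exact ⟨(IsometryEquiv.mk (Equiv.ofBijective φ ⟨hφ.injective, hsurj⟩) hφ).symm⟩

/-- The lower bound for the diameters. -/
theorem le_lipDiam {k : ℕ} (hk : 1 ≤ k) (c : ℝ≥0) (R : ℝ) (hR : 0 < R) :
    ENNReal.ofReal R ≤
      lipDiam c 1 (Metric.closedBall (0 : EuclideanSpace ℝ (Fin k)) R) (M n) := by
  classical
  let A := Metric.closedBall (0 : EuclideanSpace ℝ (Fin k)) R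
  let i₀ : Fin k := ⟨0, hk⟩
  have hpre : PreconnectedSpace A := by
    apply Subtype.preconnectedSpace
    exact (convex_closedBall (0 : EuclideanSpace ℝ (Fin k)) R).isPreconnected
  -- the lift of the long map
  let f : A → EuclideanSpace ℝ (Fin (n + 2)) :=
    fun a => EuclideanSpace.single 0 ((a : EuclideanSpace ℝ (Fin k)) i₀)
  have hfdist : ∀ a b : A, dist (f a) (f b) ≤ dist a b := by
    intro a b
    show dist (EuclideanSpace.single 0 _) (EuclideanSpace.single 0 _) ≤ _
    rw [EuclideanSpace.dist_single_same]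
    exact Motion.abs_coord_le (J := Fin k) a b i₀
  have hflip : LipschitzWith 1 f := by
    apply LipschitzWith.of_dist_le_mul
    intro a b
    simpa using hfdist a b
  have hpf : LipschitzWith 1 (fun a => pr n (f a)) := by
    have := (lipschitz_pr (n := n)).comp hflip
    simpa using! this
  have hconst : LipschitzWith 1 (fun _ : A => pr n 0) := LipschitzWith.const' _ |>.weaken zero_le_one
  -- it is enough to bound the distance from `p ∘ f` to the constant map
  have hmain : ENNReal.ofReal R ≤ lipDist c (fun a : A => pr n (f a)) (fun _ => pr n 0) := by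
    apply le_iInf
    rintro ⟨F, hF, h0, h1⟩
    have hzero : (0 : EuclideanSpace ℝ (Fin k)) ∈ Metric.closedBall (0 : EuclideanSpace ℝ (Fin k)) R :=
      Metric.mem_closedBall_self hR.le
    obtain ⟨q, hq⟩ := exists_center (G := HW n) (⟨0, hzero⟩ : A) c ⟨f, hflip.continuous⟩ 0 F hF h0 h1
    -- two opposite points
    have hmemp : EuclideanSpace.single i₀ R ∈ Metric.closedBall (0 : EuclideanSpace ℝ (Fin k)) R := by
      rw [Metric.mem_closedBall, dist_zero_right, EuclideanSpace.norm_single, Real.norm_eq_abs,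
        abs_of_pos hR]
    have hmemm : EuclideanSpace.single i₀ (-R) ∈
        Metric.closedBall (0 : EuclideanSpace ℝ (Fin k)) R := by
      rw [Metric.mem_closedBall, dist_zero_right, EuclideanSpace.norm_single, Real.norm_eq_abs,
        abs_neg, abs_of_pos hR]
    have hp := hq ⟨_, hmemp⟩
    have hm := hq ⟨_, hmemm⟩
    have hfp : f ⟨_, hmemp⟩ = EuclideanSpace.single 0 R := by simp [f]
    have hfm : f ⟨_, hmemm⟩ = EuclideanSpace.single 0 (-R) := by simp [f]
    have hp' : edist (EuclideanSpace.single 0 R : EuclideanSpace ℝ (Fin (n + 2))) q ≤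
        curveLength F := by rw [← hfp]; exact hp
    have hm' : edist (EuclideanSpace.single 0 (-R) : EuclideanSpace ℝ (Fin (n + 2))) q ≤
        curveLength F := by rw [← hfm]; exact hm
    have h2 : edist (EuclideanSpace.single 0 R : EuclideanSpace ℝ (Fin (n + 2)))
        (EuclideanSpace.single 0 (-R)) = ENNReal.ofReal (2 * R) := by
      rw [edist_dist, EuclideanSpace.dist_single_same, Real.dist_eq]
      congr 1
      rw [sub_neg_eq_add, ← two_mul, abs_of_pos (by linarith)]
    have h3 := edist_triangle_right (EuclideanSpace.single 0 R : EuclideanSpace ℝ (Fin (n + 2)))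
      (EuclideanSpace.single 0 (-R)) q
    rw [h2] at h3
    have h4 : ENNReal.ofReal (2 * R) ≤ 2 * curveLength F := by
      rw [two_mul (curveLength F)]
      exact h3.trans (add_le_add hp' hm')
    rw [ENNReal.ofReal_mul (by norm_num)] at h4
    have h5 : ENNReal.ofReal 2 = 2 := by norm_num
    rw [h5] at h4
    exact (ENNReal.mul_le_mul_iff_right (by norm_num) (by norm_num)).mp h4
  refine hmain.trans ?_
  refine le_trans ?_ (le_iSup _ ⟨fun a => pr n (f a), hpf⟩)
  exact le_iSup (fun g : {g : A → M n // LipschitzWith 1 g} =>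
    lipDist c (fun a => pr n (f a)) g.1) ⟨fun _ => pr n 0, hconst⟩

end Pool.Agent.Helper4.Lip
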