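import Pool.Agent.Helper4.Lip.Motion
import Pool.Agent.Helper4.Lip.Defs

set_option autoImplicit false

namespace Pool.Agent.Helper4.Lip

open Metric Set Topology

variable {n : ℕ}

/-- the sequence `a` followed by `0` -/
def up (a : Fin (n + 1) → ℤ) : Fin (n + 2) → ℤ := Fin.snoc (α := fun _ => ℤ) a 0

/-- the sequence `a` preceded by `0` -/
def dn (a : Fin (n + 1) → ℤ) : Fin (n + 2) → ℤ := Fin.cons (α := fun _ => ℤ) 0 a

theorem up_castSucc (a : Fin (n + 1) → ℤ) (i : Fin (n + 1)) : up a i.castSucc = a i := by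
  simp [up]

theorem up_last (a : Fin (n + 1) → ℤ) : up a (Fin.last (n + 1)) = 0 := by
  simp [up]

theorem dn_succ (a : Fin (n + 1) → ℤ) (i : Fin (n + 1)) : dn a i.succ = a i := by
  simp [dn]

theorem dn_zero (a : Fin (n + 1) → ℤ) : dn a 0 = 0 := by
  simp [dn]

theorem up_add (a b : Fin (n + 1) → ℤ) (j : Fin (n + 2)) : up (a + b) j = up a j + up b j := by
  refine Fin.lastCases ?_ (fun i => ?_) j
  · simp [up_last]
  · simp [up_castSucc]

theorem dn_add (a b : Fin (n + 1) → ℤ) (j : Fin (n + 2)) : dn (a + b) j = dn a j + dn b j := by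
  refine Fin.cases ?_ (fun i => ?_) j
  · simp [dn_zero]
  · simp [dn_succ]

theorem up_zero (j : Fin (n + 2)) : up (0 : Fin (n + 1) → ℤ) j = 0 := by
  refine Fin.lastCases ?_ (fun i => ?_) j
  · simp [up_last]
  · simp [up_castSucc]

theorem dn_zero' (j : Fin (n + 2)) : dn (0 : Fin (n + 1) → ℤ) j = 0 := by
  refine Fin.cases ?_ (fun i => ?_) j
  · simp [dn_zero]
  · simp [dn_succ]

/-- the sign of the `j`-th coordinate of the holonomy element given by `a` -/
def sgn (a : Fin (n + 1) → ℤ) (j : Fin (n + 2)) : ℤˣ := ((∑ i, a i) - up a j).negOnePow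

theorem sgn_add (a b : Fin (n + 1) → ℤ) : sgn (a + b) = sgn a * sgn b := by
  funext j
  simp only [sgn, Pi.mul_apply, up_add, Pi.add_apply, Finset.sum_add_distrib]
  rw [← Int.negOnePow_add]
  congr 1
  ring

theorem sgn_zero : sgn (0 : Fin (n + 1) → ℤ) = 1 := by
  funext j
  simp [sgn, up_zero]

/-- half-integral translation part -/
noncomputable def half (a : Fin (n + 1) → ℤ) (j : Fin (n + 2)) : ℝ := ((up a j + dn a j : ℤ) : ℝ) / 2

/-- The generalised Hantzsche-Wendt group. -/
noncomputable def HW (n : ℕ) : Subgroup (Motion (Fin (n + 2))) where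
  carrier := {g | ∃ (a : Fin (n + 1) → ℤ) (u : Fin (n + 2) → ℤ), g.s = sgn a ∧
    ∀ j, g.v j = half a j + u j}
  mul_mem' := by
    rintro g h ⟨a, u, hgs, hgv⟩ ⟨b, w, hhs, hhv⟩
    have key : ∀ j, ∃ k : ℤ, (g * h).v j = half (a + b) j + k := by
      intro j
      rw [Motion.mul_v, hgv, hhv, hgs]
      rcases Int.units_eq_one_or (sgn a j) with h1 | h1
      · refine ⟨w j + u j, ?_⟩
        rw [h1, sg_one]
        simp only [half, up_add, dn_add]
        push_cast
        ring
      · refine ⟨- w j + u j - (up b j + dn b j), ?_⟩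
        rw [h1, sg_neg_one]
        simp only [half, up_add, dn_add]
        push_cast
        ring
    choose k hk using key
    exact ⟨a + b, k, by rw [Motion.mul_s, hgs, hhs, sgn_add], hk⟩
  one_mem' := by
    refine ⟨0, 0, by rw [Motion.one_s, sgn_zero], fun j => ?_⟩
    simp [Motion.one_v, half, up_zero, dn_zero']
  inv_mem' := by
    rintro g ⟨a, u, hgs, hgv⟩
    have key : ∀ j, ∃ k : ℤ, (g⁻¹).v j = half a j + k := by
      intro j
      rw [Motion.inv_v, hgv, hgs]
      rcases Int.units_eq_one_or (sgn a j) with h1 | h1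
      · refine ⟨- u j - (up a j + dn a j), ?_⟩
        rw [h1, sg_one]
        simp only [half]
        push_cast
        ring
      · refine ⟨u j, ?_⟩
        rw [h1, sg_neg_one]
        ring
    choose k hk using key
    exact ⟨a, k, by rw [Motion.inv_s, hgs], hk⟩

theorem mem_HW {g : Motion (Fin (n + 2))} : g ∈ HW n ↔
    ∃ (a : Fin (n + 1) → ℤ) (u : Fin (n + 2) → ℤ), g.s = sgn a ∧ ∀ j, g.v j = half a j + u j :=
  Iff.rfl

/-- integral translations belong to the group -/
theorem trans_mem_HW (u : Fin (n + 2) → ℤ) : (⟨1, fun j => (u j : ℝ)⟩ : Motion (Fin (n + 2))) ∈ HW n := by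
  refine ⟨0, u, by rw [sgn_zero], fun j => ?_⟩
  simp [half, up_zero, dn_zero']

theorem sgn_eq_one_iff (a : Fin (n + 1) → ℤ) (j : Fin (n + 2)) :
    sgn a j = 1 ↔ Even ((∑ i, a i) - up a j) := Int.negOnePow_eq_one_iff _

/-- the parity argument -/
theorem all_even (a : Fin (n + 1) → ℤ)
    (h : ∀ j, Even ((∑ i, a i) - up a j) → Even (up a j + dn a j)) : ∀ i, Even (a i) := by
  rcases Int.even_or_odd (∑ i, a i) with hT | hT
  · -- downward induction
    intro i
    refine Fin.reverseInduction (motive := fun i => Even (a i)) ?_ ?_ i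
    · have := h (Fin.last (n + 1)) (by rw [up_last]; simpa using hT)
      rw [up_last, ← Fin.succ_last, dn_succ] at this
      simpa using this
    · intro i hi
      have h1 := h i.succ.castSucc (by
        rw [up_castSucc]
        exact hT.sub hi)
      rw [up_castSucc, ← Fin.succ_castSucc, dn_succ] at h1
      exact (Int.even_add.mp h1).mp hi
  · -- upward induction, leading to a contradiction
    exfalso
    have hall : ∀ i, Even (a i) := by
      intro i
      refine Fin.induction (motive := fun i => Even (a i)) ?_ ?_ i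
      · by_contra hodd
        rw [Int.not_even_iff_odd] at hodd
        have h1 := h (Fin.castSucc 0) (by
          rw [up_castSucc]
          exact hT.sub_odd hodd)
        rw [up_castSucc] at h1
        have h2 : dn a (Fin.castSucc 0) = 0 := dn_zero a
        rw [h2, add_zero] at h1
        exact (Int.not_even_iff_odd.mpr hodd) h1
      · intro i hi
        by_contra hodd
        rw [Int.not_even_iff_odd] at hodd
        have h1 := h i.succ.castSucc (by
          rw [up_castSucc]
          exact hT.sub_odd hodd)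
        rw [up_castSucc, ← Fin.succ_castSucc, dn_succ] at h1
        exact (Int.not_even_iff_odd.mpr hodd) ((Int.even_add.mp h1).mpr hi)
    have : Even (∑ i, a i) := Finset.even_sum _ (fun i _ => hall i)
    exact (Int.not_even_iff_odd.mpr hT) this

theorem exists_moved {g : Motion (Fin (n + 2))} (hg : g ∈ HW n) (hne : g ≠ 1) :
    ∃ j, g.s j = 1 ∧ 1 / 2 ≤ |g.v j| := by
  obtain ⟨a, u, hs, hv⟩ := hg
  by_contra hcon
  push Not at hcon
  have hzero : ∀ j, g.s j = 1 → g.v j = 0 := by
    intro j hj
    have h1 := hcon j hj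
    have h2 : g.v j = ((up a j + dn a j + 2 * u j : ℤ) : ℝ) / 2 := by
      rw [hv j]
      simp only [half]
      push_cast
      ring
    have h3 : |((up a j + dn a j + 2 * u j : ℤ) : ℝ)| < 1 := by
      rw [h2, abs_div, abs_two] at h1
      linarith
    have h4 : up a j + dn a j + 2 * u j = 0 := by
      have : |(up a j + dn a j + 2 * u j : ℤ)| < 1 := by exact_mod_cast h3
      exact Int.abs_lt_one_iff.mp this
    rw [h2, h4]
    simp
  have heven : ∀ i, Even (a i) := by
    apply all_even
    intro j hj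
    have h1 : g.v j = 0 := hzero j (by rw [hs]; exact (sgn_eq_one_iff a j).mpr hj)
    rw [hv j] at h1
    simp only [half] at h1
    have h2 : ((up a j + dn a j : ℤ) : ℝ) = ((-(2 * u j) : ℤ) : ℝ) := by
      push_cast
      push_cast at h1
      linarith
    have h3 : up a j + dn a j = -(2 * u j) := by exact_mod_cast h2
    rw [h3]
    exact (even_two_mul _).neg
  have hsum : Even (∑ i, a i) := Finset.even_sum _ (fun i _ => heven i)
  have hup : ∀ j, Even (up a j) := by
    intro j
    refine Fin.lastCases ?_ (fun i => ?_) j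
    · simp [up_last]
    · rw [up_castSucc]; exact heven i
  have hs1 : ∀ j, g.s j = 1 := by
    intro j
    rw [hs]
    exact (sgn_eq_one_iff a j).mpr (hsum.sub (hup j))
  apply hne
  ext j
  · rw [hs1 j]; rfl
  · rw [hzero j (hs1 j)]; rfl

instance : UniformlyFree (HW n) (EuclideanSpace ℝ (Fin (n + 2))) where
  exists_delta := by
    refine ⟨1 / 2, by norm_num, ?_⟩
    intro g hg x
    have hne : (g : Motion (Fin (n + 2))) ≠ 1 := by
      intro h
      exact hg (Subtype.ext h)
    obtain ⟨j, hj1, hj2⟩ := exists_moved g.2 hne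
    refine le_trans ?_ (Motion.abs_coord_le (g • x) x j)
    have : (g • x) j = sg ((g : Motion (Fin (n + 2))).s j) * x j +
      (g : Motion (Fin (n + 2))).v j := rfl
    rw [this, hj1, sg_one]
    have h2 : 1 * x j + (g : Motion (Fin (n + 2))).v j - x j =
      (g : Motion (Fin (n + 2))).v j := by ring
    rw [h2]
    exact hj2

instance : IsIsometricSMul (HW n) (EuclideanSpace ℝ (Fin (n + 2))) where
  isometry_smul g := isometry_smul (EuclideanSpace ℝ (Fin (n + 2))) (g : Motion (Fin (n + 2)))

/-- The generalised Hantzsche-Wendt manifold of dimension `n + 2`. -/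
abbrev M (n : ℕ) : Type := Q (HW n) (EuclideanSpace ℝ (Fin (n + 2)))

/-- the projection -/
noncomputable def pr (n : ℕ) : EuclideanSpace ℝ (Fin (n + 2)) → M n := Q.mk (HW n)

theorem pr_surjective : Function.Surjective (pr n) := Q.mk_surjective _

theorem continuous_pr : Continuous (pr n) := continuous_mk

instance : PathConnectedSpace (M n) := pr_surjective.pathConnectedSpace continuous_pr

instance : CompactSpace (M n) := by
  constructor
  let K : Set (Fin (n + 2) → ℝ) := Set.pi Set.univ (fun _ => Set.Icc (0 : ℝ) 1)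
  have hK : IsCompact K := isCompact_univ_pi (fun _ => isCompact_Icc)
  have hK' : IsCompact ((fun f : Fin (n + 2) → ℝ => (WithLp.toLp 2 f : EuclideanSpace ℝ (Fin (n + 2)))) '' K) :=
    hK.image (PiLp.continuous_toLp 2 _)
  have := hK'.image (continuous_pr (n := n))
  convert this
  symm
  rw [Set.eq_univ_iff_forall]
  intro q
  obtain ⟨x, rfl⟩ := pr_surjective q
  refine ⟨WithLp.toLp 2 (fun j => Int.fract (x j)), ⟨fun j => Int.fract (x j), ?_, rfl⟩, ?_⟩
  · intro j _
    exact ⟨Int.fract_nonneg _, (Int.fract_lt_one _).le⟩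
  · show Q.mk (HW n) _ = Q.mk (HW n) x
    rw [Q.mk_eq_iff]
    refine ⟨⟨_, trans_mem_HW (fun j => - ⌊x j⌋)⟩, ?_⟩
    ext j
    show sg ((1 : Fin (n + 2) → ℤˣ) j) * x j + ((- ⌊x j⌋ : ℤ) : ℝ) = Int.fract (x j)
    rw [Pi.one_apply, sg_one, Int.fract]
    push_cast
    ring

end Pool.Agent.Helper4.Lip
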