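import Pool.Agent.Helper4.Lip.Aug
import Pool.Agent.Helper4.Lip.HW
import Mathlib.Topology.Homotopy.Lifting
import Mathlib.Analysis.Convex.Contractible

set_option autoImplicit false

namespace Pool.Agent.Helper4.Lip

open Finset

instance (i : ℕ) : ContractibleSpace (stdSimplex ℝ (Fin (i + 1))) :=
  (convex_stdSimplex ℝ (Fin (i + 1))).contractibleSpace ⟨_, single_mem_stdSimplex ℝ 0⟩

instance (i : ℕ) : LocallyPathConnectedSpace (stdSimplex ℝ (Fin (i + 1))) :=
  (convex_stdSimplex ℝ (Fin (i + 1))).locallyPathConnectedSpace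

/-- the projection as a continuous map -/
noncomputable def prC (n : ℕ) : C(EuclideanSpace ℝ (Fin (n + 2)), M n) := ⟨pr n, continuous_pr⟩

variable {n : ℕ}

/-- singular simplices of the quotient lift -/
theorem exists_lift (i : ℕ) (σ : Sx (M n) i) :
    ∃ σ' : Sx (EuclideanSpace ℝ (Fin (n + 2))) i, (prC n).comp σ' = σ := by
  obtain ⟨e₀, he⟩ := pr_surjective (σ (stdSimplex.vertex 0))
  have hcov : IsCoveringMap (pr n) := isCoveringMap_mk
  obtain ⟨F, ⟨_, hF⟩, _⟩ := hcov.existsUnique_continuousMap_lifts σ (stdSimplex.vertex 0) e₀ he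
  refine ⟨F, ?_⟩
  ext t : 1
  exact congrFun hF t

/-- lifts are unique up to the group -/
theorem lift_unique (i : ℕ) (σ σ' : Sx (EuclideanSpace ℝ (Fin (n + 2))) i)
    (h : (prC n).comp σ = (prC n).comp σ') : ∃ g ∈ HW n, act g σ' = σ := by
  have hcov : IsCoveringMap (pr n) := isCoveringMap_mk
  have h1 : pr n (σ (stdSimplex.vertex 0)) = pr n (σ' (stdSimplex.vertex 0)) :=
    congrArg (fun f : Sx (M n) i => f (stdSimplex.vertex 0)) h
  obtain ⟨g, hg⟩ := (Q.mk_eq_iff (HW n)).mp h1
  refine ⟨g, g.2, ?_⟩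
  have h2 : pr n ∘ (act (g : Motion (Fin (n + 2))) σ') = pr n ∘ σ := by
    funext t
    have h3 : pr n (σ t) = pr n (σ' t) := congrArg (fun f : Sx (M n) i => f t) h
    show pr n ((g : Motion (Fin (n + 2))) • σ' t) = pr n (σ t)
    rw [h3]
    exact (Q.mk_eq_iff (HW n)).mpr ⟨g, rfl⟩
  have h4 := hcov.eq_of_comp_eq (act (g : Motion (Fin (n + 2))) σ').continuous σ.continuous h2
    (stdSimplex.vertex 0) hg
  ext t : 1
  exact congrFun h4 t

theorem prC_act (i : ℕ) (g : Motion (Fin (n + 2))) (hg : g ∈ HW n)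
    (σ : Sx (EuclideanSpace ℝ (Fin (n + 2))) i) : (prC n).comp (act g σ) = (prC n).comp σ := by
  ext t : 1
  exact (Q.mk_eq_iff (HW n)).mpr ⟨⟨g, hg⟩, rfl⟩

/-- the projection on chains -/
noncomputable def push (n i : ℕ) : (euc (Fin (n + 2))).C i →ₗ[ℝ] Ch (M n) i :=
  Finsupp.lmapDomain ℝ ℝ (fun σ : Sx (EuclideanSpace ℝ (Fin (n + 2))) i => (prC n).comp σ)

theorem push_single (i : ℕ) (σ : Sx (EuclideanSpace ℝ (Fin (n + 2))) i) (r : ℝ) :
    push n i (Finsupp.single σ r : Ch _ i) = Finsupp.single ((prC n).comp σ) r :=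
  Finsupp.mapDomain_single

/-- a section of the projection on chains -/
noncomputable def sec (n i : ℕ) : Ch (M n) i →ₗ[ℝ] (euc (Fin (n + 2))).C i :=
  Finsupp.lmapDomain ℝ ℝ (fun σ => (exists_lift (n := n) i σ).choose)

theorem push_sec (i : ℕ) (c : Ch (M n) i) : push n i (sec n i c) = c := by
  have : push n i ∘ₗ sec n i = LinearMap.id := by
    apply Finsupp.lhom_ext
    intro σ r
    show push n i (Finsupp.mapDomain _ (Finsupp.single σ r)) = Finsupp.single σ r
    rw [Finsupp.mapDomain_single]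
    refine (push_single i _ r).trans ?_
    rw [(exists_lift i σ).choose_spec]
  exact congrArg (fun f => f c) this

theorem sec_push (i : ℕ) (c : (euc (Fin (n + 2))).C i) :
    sec n i (push n i c) - c ∈ (euc (Fin (n + 2))).KG (HW n) i := by
  set L : (euc (Fin (n + 2))).C i →ₗ[ℝ] (euc (Fin (n + 2))).C i :=
    sec n i ∘ₗ push n i - LinearMap.id with hL
  have key : ∀ c : Ch (EuclideanSpace ℝ (Fin (n + 2))) i,
      L c ∈ (euc (Fin (n + 2))).KG (HW n) i := by
    intro c
    induction c using Finsupp.induction_linear with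
    | zero =>
      have h := Submodule.zero_mem ((euc (Fin (n + 2))).KG (HW n) i)
      rw [← map_zero L] at h
      exact h
    | add c c' hc hc' =>
      have h := Submodule.add_mem _ hc hc'
      rw [← map_add] at h
      exact h
    | single σ r =>
      obtain ⟨g, hg, hgσ⟩ := lift_unique i _ σ (exists_lift (n := n) i ((prC n).comp σ)).choose_spec
      have h1 := GC.sub_mem_KG (K := euc (Fin (n + 2))) (i := i) hg (Finsupp.single σ r : Ch _ i)
      have h2 : (euc (Fin (n + 2))).ρ i g (Finsupp.single σ r : Ch _ i) =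
          sec n i (push n i (Finsupp.single σ r : Ch _ i)) := by
        rw [push_single]
        show Finsupp.mapDomain _ _ = Finsupp.mapDomain _ _
        rw [Finsupp.mapDomain_single, Finsupp.mapDomain_single, hgσ]
      rw [h2] at h1
      exact h1
  exact key c

theorem push_KG (i : ℕ) {c : (euc (Fin (n + 2))).C i} (hc : c ∈ (euc (Fin (n + 2))).KG (HW n) i) :
    push n i c = 0 := by
  induction hc using Submodule.span_induction with
  | mem x hx =>
    obtain ⟨g, hg, c, rfl⟩ := hx
    rw [map_sub, sub_eq_zero]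
    have : push n i ∘ₗ ((euc (Fin (n + 2))).ρ i g) = push n i := by
      apply Finsupp.lhom_ext
      intro σ r
      show Finsupp.mapDomain _ (Finsupp.mapDomain _ _) = Finsupp.mapDomain _ _
      rw [Finsupp.mapDomain_single, Finsupp.mapDomain_single, Finsupp.mapDomain_single,
        prC_act i g hg]
    exact congrArg (fun f => f c) this
  | zero => exact map_zero _
  | add x y _ _ hx hy => rw [map_add, hx, hy, add_zero]
  | smul r x _ hx => rw [map_smul, hx, smul_zero]

theorem push_d (i : ℕ) (c : (euc (Fin (n + 2))).C (i + 1)) :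
    bd (M n) i (push n (i + 1) c) = push n i ((euc (Fin (n + 2))).d i c) := by
  have : bd (M n) i ∘ₗ push n (i + 1) = push n i ∘ₗ (euc (Fin (n + 2))).d i := by
    apply Finsupp.lhom_ext
    intro σ r
    show bd (M n) i (Finsupp.mapDomain _ (Finsupp.single σ r)) = Finsupp.lmapDomain ℝ ℝ
      (fun σ : Sx (EuclideanSpace ℝ (Fin (n + 2))) i => (prC n).comp σ)
      (bd (EuclideanSpace ℝ (Fin (n + 2))) i (Finsupp.single σ r))
    rw [Finsupp.mapDomain_single]
    simp only [bd, LinearMap.coe_sum, Finset.sum_apply, LinearMap.smul_apply, map_sum, map_smul,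
      Finsupp.lmapDomain_apply, Finsupp.mapDomain_single]
    rfl
  exact congrArg (fun f => f c) this

theorem ker_push (i : ℕ) {c : (euc (Fin (n + 2))).C i} (hc : push n i c = 0) :
    c ∈ (euc (Fin (n + 2))).KG (HW n) i := by
  have h := sec_push i c
  rw [hc, map_zero, zero_sub] at h
  have := Submodule.neg_mem _ h
  rwa [neg_neg] at this

theorem up_single (b : Fin (n + 1)) (j : Fin (n + 2)) :
    up (Pi.single b 1) j = if j = b.castSucc then 1 else 0 := by
  refine Fin.lastCases ?_ (fun i => ?_) j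
  · rw [up_last, if_neg]
    exact (Fin.castSucc_ne_last b).symm
  · rw [up_castSucc, Pi.single_apply]
    by_cases h : i = b
    · rw [if_pos h, if_pos (by rw [h])]
    · rw [if_neg h, if_neg (fun h' => h (Fin.castSucc_injective _ h'))]

theorem sg_sgn_single (b : Fin (n + 1)) (j : Fin (n + 2)) :
    sg (sgn (Pi.single b 1) j) = if j = b.castSucc then 1 else -1 := by
  unfold sgn
  rw [up_single, Finset.sum_pi_single', if_pos (Finset.mem_univ b)]
  by_cases h : j = b.castSucc
  · rw [if_pos h, if_pos h, sub_self, Int.negOnePow_zero, sg_one]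
  · rw [if_neg h, if_neg h, sub_zero, Int.negOnePow_one, sg_neg_one]

theorem chi_sgn_mem (b : Fin (n + 1)) (S : Finset (Fin (n + 2))) (h : b.castSucc ∈ S) :
    GC.chi S (sgn (Pi.single b 1)) = (-1) ^ (S.card - 1) := by
  unfold GC.chi
  rw [← Finset.mul_prod_erase S _ h, sg_sgn_single, if_pos rfl, one_mul,
    Finset.prod_congr rfl (g := fun _ => (-1 : ℝ)), Finset.prod_const, Finset.card_erase_of_mem h]
  intro j hj
  rw [sg_sgn_single, if_neg (Finset.mem_erase.mp hj).1]

theorem chi_sgn_not_mem (b : Fin (n + 1)) (S : Finset (Fin (n + 2))) (h : b.castSucc ∉ S) :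
    GC.chi S (sgn (Pi.single b 1)) = (-1) ^ S.card := by
  unfold GC.chi
  rw [Finset.prod_congr rfl (g := fun _ => (-1 : ℝ)), Finset.prod_const]
  intro j hj
  have hne : j ≠ b.castSucc := by
    rintro rfl
    exact h hj
  rw [sg_sgn_single, if_neg hne]

/-- sign conditions for the transfer -/
theorem HW_chi (S : Finset (Fin (n + 2))) (h1 : 1 ≤ S.card) (h2 : S.card + 2 ≤ n + 2) :
    ∃ g ∈ HW n, GC.chi S g.s = -1 := by
  have hmem : ∀ a : Fin (n + 1) → ℤ, (⟨sgn a, fun j => half a j⟩ : Motion (Fin (n + 2))) ∈ HW n := by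
    intro a
    exact ⟨a, 0, rfl, fun j => by simp⟩
  rcases Nat.even_or_odd S.card with hS | hS
  · -- an element different from the last one
    obtain ⟨j, hj, hjl⟩ : ∃ j ∈ S, j ≠ Fin.last (n + 1) := by
      by_contra hcon
      push Not at hcon
      have h3 : S ⊆ {Fin.last (n + 1)} := fun j hj => Finset.mem_singleton.mpr (hcon j hj)
      have h4 := Finset.card_le_card h3
      rw [Finset.card_singleton] at h4
      obtain ⟨m, hm⟩ := hS
      omega
    obtain ⟨b, rfl⟩ := Fin.exists_castSucc_eq.mpr hjl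
    refine ⟨_, hmem (Pi.single b 1), ?_⟩
    rw [chi_sgn_mem b S hj]
    apply Odd.neg_one_pow
    obtain ⟨m, hm⟩ := hS
    exact ⟨m - 1, by omega⟩
  · obtain ⟨b, hb⟩ : ∃ b : Fin (n + 1), b.castSucc ∉ S := by
      by_contra hcon
      push Not at hcon
      have h3 : (Finset.univ : Finset (Fin (n + 1))).map Fin.castSuccEmb ⊆ S := by
        intro j hj
        rw [Finset.mem_map] at hj
        obtain ⟨b, _, rfl⟩ := hj
        exact hcon b
      have h4 := Finset.card_le_card h3
      rw [Finset.card_map, Finset.card_univ, Fintype.card_fin] at h4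
      omega
    refine ⟨_, hmem (Pi.single b 1), ?_⟩
    rw [chi_sgn_not_mem b S hb]
    exact hS.neg_one_pow

theorem HW_int (g : Motion (Fin (n + 2))) (hg : g ∈ HW n) (hs : g.s = 1) :
    ∃ u : Fin (n + 2) → ℤ, g.v = fun j => (u j : ℝ) := by
  obtain ⟨a, u, hga, hgv⟩ := hg
  have hall : ∀ j, Even ((∑ i, a i) - up a j) := by
    intro j
    rw [← sgn_eq_one_iff, ← hga, hs]
    rfl
  have hsum : Even (∑ i, a i) := by
    have := hall (Fin.last (n + 1))
    rwa [up_last, sub_zero] at this
  have hup : ∀ j, Even (up a j) := by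
    intro j
    have := hsum.sub (hall j)
    rwa [sub_sub_cancel] at this
  have hev : ∀ i, Even (a i) := by
    intro i
    have := hup i.castSucc
    rwa [up_castSucc] at this
  have hdn : ∀ j, Even (dn a j) := by
    intro j
    refine Fin.cases ?_ (fun i => ?_) j
    · simp [dn_zero]
    · rw [dn_succ]; exact hev i
  have key : ∀ j, ∃ w : ℤ, g.v j = w := by
    intro j
    obtain ⟨m, hm⟩ := (hup j).add (hdn j)
    refine ⟨m + u j, ?_⟩
    rw [hgv j]
    unfold half
    rw [hm]
    push_cast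
    ring
  choose w hw using key
  exact ⟨w, funext hw⟩

theorem vanishes (k : ℕ) (hk : k + 1 ≤ n) : RealHomologyVanishes (M n) (k + 1) := by
  rw [vanishes_iff]
  intro z hz
  have hz' : z = push n (k + 1) (sec n (k + 1) z) := (push_sec (k + 1) z).symm
  set c := sec n (k + 1) z with hc
  have h1 : (euc (Fin (n + 2))).d k c ∈ (euc (Fin (n + 2))).KG (HW n) k := by
    apply ker_push
    rw [← push_d, ← hz', hz]
  have h2 := GC.transfer (K := euc (Fin (n + 2))) (HW n) ?_ HW_int ?_
    (GC.P_all euc_inj euc_acyc euc_aug Finset.univ) k (by rw [Fintype.card_fin]; omega) c h1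
  · obtain ⟨_, ⟨b, rfl⟩, u, hu, hbu⟩ := Submodule.mem_sup.mp h2
    refine ⟨push n (k + 2) b, ?_⟩
    rw [push_d, hz', ← hbu, map_add, push_KG _ hu, add_zero]
  · intro j
    have h3 := trans_mem_HW (n := n) (Pi.single j 1)
    have h4 : (fun k => ((Pi.single j 1 : Fin (n + 2) → ℤ) k : ℝ)) = Pi.single j 1 := by
      funext k
      by_cases hkj : k = j
      · subst hkj; simp
      · simp [hkj]
    rw [h4] at h3
    exact h3
  · rw [Fintype.card_fin]
    exact HW_chi

end Pool.Agent.Helper4.Lip
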