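import Pool.Agent.Helper4.Lip.Quot

set_option autoImplicit false

namespace Pool.Agent.Helper4.Lip

open Metric Set Topology

variable (J : Type)

/-- The maps `x ↦ s x + v` of `ℝ^J` with `s` a diagonal matrix of signs. -/
@[ext] structure Motion where
  s : J → ℤˣ
  v : J → ℝ

variable {J}

/-- the sign as a real number -/
def sg (e : ℤˣ) : ℝ := ((e : ℤ) : ℝ)

theorem sg_one : sg 1 = 1 := by simp [sg]
theorem sg_mul (a b : ℤˣ) : sg (a * b) = sg a * sg b := by simp [sg]
theorem sg_neg_one : sg (-1) = -1 := by simp [sg]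
theorem sg_sq (a : ℤˣ) : sg a * sg a = 1 := by rw [← sg_mul, Int.units_mul_self, sg_one]
theorem abs_sg (a : ℤˣ) : |sg a| = 1 := by
  rcases Int.units_eq_one_or a with rfl | rfl
  · simp [sg_one]
  · simp [sg_neg_one]

namespace Motion

noncomputable instance : Mul (Motion J) := ⟨fun a b => ⟨a.s * b.s, fun j => sg (a.s j) * b.v j + a.v j⟩⟩
noncomputable instance : One (Motion J) := ⟨⟨1, 0⟩⟩
noncomputable instance : Inv (Motion J) := ⟨fun a => ⟨a.s, fun j => - (sg (a.s j) * a.v j)⟩⟩

theorem mul_s (a b : Motion J) : (a * b).s = a.s * b.s := rfl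
theorem mul_v (a b : Motion J) (j : J) : (a * b).v j = sg (a.s j) * b.v j + a.v j := rfl
theorem one_s : (1 : Motion J).s = 1 := rfl
theorem one_v : (1 : Motion J).v = 0 := rfl
theorem inv_s (a : Motion J) : (a⁻¹).s = a.s := rfl
theorem inv_v (a : Motion J) (j : J) : (a⁻¹).v j = - (sg (a.s j) * a.v j) := rfl

noncomputable instance : Group (Motion J) where
  mul_assoc a b c := by
    ext j
    · simp only [mul_s, mul_assoc]
    · simp only [mul_v, mul_s, Pi.mul_apply, sg_mul]; ring
  one_mul a := by
    ext j
    · simp only [mul_s, one_s, one_mul]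
    · simp only [mul_v, one_s, one_v, Pi.one_apply, Pi.zero_apply, sg_one]; ring
  mul_one a := by
    ext j
    · simp only [mul_s, one_s, mul_one]
    · simp only [mul_v, one_v, Pi.zero_apply]; ring
  inv_mul_cancel a := by
    ext j
    · simp only [mul_s, inv_s, one_s, Pi.mul_apply, Int.units_mul_self, Pi.one_apply]
    · simp only [mul_v, inv_s, inv_v, one_v, Pi.zero_apply]; ring

variable [Fintype J]

noncomputable instance : MulAction (Motion J) (EuclideanSpace ℝ J) where
  smul g x := WithLp.toLp 2 (fun j => sg (g.s j) * x j + g.v j)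
  one_smul x := by
    ext j
    show sg ((1 : Motion J).s j) * x j + (1 : Motion J).v j = x j
    simp only [one_s, one_v, Pi.one_apply, Pi.zero_apply, sg_one]; ring
  mul_smul a b x := by
    ext j
    show sg ((a * b).s j) * x j + (a * b).v j = sg (a.s j) * (sg (b.s j) * x j + b.v j) + a.v j
    simp only [mul_s, mul_v, Pi.mul_apply, sg_mul]; ring

theorem smul_apply (g : Motion J) (x : EuclideanSpace ℝ J) (j : J) :
    (g • x) j = sg (g.s j) * x j + g.v j := rfl

instance : IsIsometricSMul (Motion J) (EuclideanSpace ℝ J) where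
  isometry_smul g := by
    apply Isometry.of_dist_eq
    intro x y
    rw [EuclideanSpace.dist_eq, EuclideanSpace.dist_eq]
    congr 1
    apply Finset.sum_congr rfl
    intro j _
    rw [smul_apply, smul_apply, Real.dist_eq, Real.dist_eq]
    have : sg (g.s j) * x j + g.v j - (sg (g.s j) * y j + g.v j) = sg (g.s j) * (x j - y j) := by
      ring
    rw [this, abs_mul, abs_sg, one_mul]

/-- coordinates are controlled by the distance -/
theorem abs_coord_le (x y : EuclideanSpace ℝ J) (j : J) : |x j - y j| ≤ dist x y := by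
  have := EuclideanSpace.dist_eq x y
  rw [this]
  apply Real.le_sqrt_of_sq_le
  have h : |x j - y j| ^ 2 = dist (x j) (y j) ^ 2 := by rw [Real.dist_eq]
  rw [h]
  exact Finset.single_le_sum (f := fun i => dist (x i) (y i) ^ 2)
    (fun i _ => by positivity) (Finset.mem_univ j)

end Motion

end Pool.Agent.Helper4.Lip
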